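import Mathlib
import Pool.Agent.Lib.MP_d1f1b5_nt.QR.Final

section
set_option autoImplicit false

/-!
The functionals `L n f = sum_m coeff_m(f) m^n` on `ℤ[X]` and the logarithmic-derivative argument.
-/

namespace Pool.Agent.Lib.MP_d1f1b5_nt.KU

open Finset Polynomial

/-- `L n f = sum_m coeff_m(f) m^n`, i.e. `(X d/dX)^n f` at `1` -/
noncomputable def L (n : ℕ) (f : ℤ[X]) : ℤ := f.sum fun m c => c * (m : ℤ) ^ n

theorem L_add (n : ℕ) (f g : ℤ[X]) : L n (f + g) = L n f + L n g := by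
  unfold L
  apply Polynomial.sum_add_index
  · intro i
    ring
  · intro a b c
    ring

theorem L_monomial (n m : ℕ) (c : ℤ) : L n (monomial m c) = c * (m : ℤ) ^ n := by
  unfold L
  rw [Polynomial.sum_monomial_index]
  ring

theorem L_zero (n : ℕ) : L n 0 = 0 := by
  unfold L
  simp

theorem L_C_mul (n : ℕ) (c : ℤ) (f : ℤ[X]) : L n (C c * f) = c * L n f := by
  induction f using Polynomial.induction_on' with
  | add f g hf hg => rw [mul_add, L_add, L_add, hf, hg]; ring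
  | monomial m a => rw [C_mul_monomial, L_monomial, L_monomial]; ring

theorem L_neg (n : ℕ) (f : ℤ[X]) : L n (-f) = - L n f := by
  have := L_C_mul n (-1) f
  simpa using this

theorem L_sub (n : ℕ) (f g : ℤ[X]) : L n (f - g) = L n f - L n g := by
  rw [sub_eq_add_neg, L_add, L_neg]
  ring

theorem L_sum {ι : Type*} (n : ℕ) (s : Finset ι) (f : ι → ℤ[X]) :
    L n (∑ i ∈ s, f i) = ∑ i ∈ s, L n (f i) := by
  classical
  induction s using Finset.induction_on with
  | empty => simp [L_zero]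
  | insert a s ha ih => rw [Finset.sum_insert ha, Finset.sum_insert ha, L_add, ih]

theorem L_natCast_mul (n : ℕ) (c : ℕ) (f : ℤ[X]) : L n ((c : ℤ[X]) * f) = c * L n f := by
  have := L_C_mul n (c : ℤ) f
  simpa using this

theorem L_X_pow (n m : ℕ) : L n (X ^ m) = (m : ℤ) ^ n := by
  rw [X_pow_eq_monomial, L_monomial, one_mul]

theorem L_one {n : ℕ} (hn : n ≠ 0) : L n 1 = 0 := by
  have := L_X_pow n 0
  simpa [hn] using this

theorem L_zero_eval (f : ℤ[X]) : L 0 f = f.eval 1 := by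
  unfold L
  rw [Polynomial.eval_eq_sum]
  simp

theorem L_mul (n : ℕ) (f g : ℤ[X]) :
    L n (f * g) = ∑ i ∈ range (n + 1), (n.choose i : ℤ) * (L i f * L (n - i) g) := by
  induction f using Polynomial.induction_on' with
  | add f1 f2 h1 h2 =>
    rw [add_mul, L_add, h1, h2, ← Finset.sum_add_distrib]
    refine Finset.sum_congr rfl fun i _ => ?_
    rw [L_add]
    ring
  | monomial m a =>
    induction g using Polynomial.induction_on' with
    | add g1 g2 h1 h2 =>
      rw [mul_add, L_add, h1, h2, ← Finset.sum_add_distrib]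
      refine Finset.sum_congr rfl fun i _ => ?_
      rw [L_add]
      ring
    | monomial k b =>
      rw [monomial_mul_monomial, L_monomial]
      push_cast
      rw [add_pow, Finset.mul_sum]
      refine Finset.sum_congr rfl fun i _ => ?_
      rw [L_monomial, L_monomial]
      ring

theorem L_succ (n : ℕ) (f : ℤ[X]) : L (n + 1) f = L n (X * derivative f) := by
  induction f using Polynomial.induction_on' with
  | add f g hf hg => rw [L_add, hf, hg, derivative_add, mul_add, L_add]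
  | monomial m a =>
    rw [L_monomial, derivative_monomial, X_mul_monomial, L_monomial]
    rcases m with _ | m
    · simp
    · have : m + 1 - 1 + 1 = m + 1 := by omega
      rw [this]
      push_cast
      ring

theorem L_pow_dvd (q i : ℕ) (f : ℤ[X]) (hi : i ≠ 0) : (q : ℤ) ∣ L i (f ^ q) := by
  obtain ⟨i, rfl⟩ := Nat.exists_eq_succ_of_ne_zero hi
  rw [Nat.succ_eq_add_one, L_succ, derivative_pow]
  have : (X : ℤ[X]) * (C (q : ℤ) * f ^ (q - 1) * derivative f)
      = C (q : ℤ) * (X * (f ^ (q - 1) * derivative f)) := by ring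
  rw [this, L_C_mul]
  exact Dvd.intro _ rfl

/-- `L n` kills `(X-1)^k` for `n < k` -/
theorem L_sub_one_pow (k : ℕ) : ∀ (n : ℕ) (g : ℤ[X]), n < k → L n ((X - 1) ^ k * g) = 0 := by
  induction k with
  | zero =>
    intro n g hn
    omega
  | succ k ih =>
    intro n g hn
    rw [pow_succ', mul_assoc, L_mul]
    apply Finset.sum_eq_zero
    intro i hi
    rcases Nat.eq_zero_or_pos i with h0 | h0
    · rw [h0]
      have : L 0 (X - 1) = 0 := by
        rw [L_zero_eval]
        simp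
      rw [this]
      ring
    · have hi' := Finset.mem_range.mp hi
      have : L (n - i) ((X - 1) ^ k * g) = 0 := by
        apply ih
        omega
      rw [this]
      ring

theorem L_expand (n : ℕ) (f : ℤ[X]) (a : ℕ) : L n (expand ℤ a f) = (a : ℤ) ^ n * L n f := by
  induction f using Polynomial.induction_on' with
  | add f g hf hg => rw [map_add, L_add, L_add, hf, hg]; ring
  | monomial m c =>
    rw [expand_monomial, L_monomial, L_monomial]
    push_cast
    ring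

section prime

variable {q : ℕ} [hq : Fact q.Prime]

omit hq in
theorem pow_congr {a b : ℤ} (h : (q : ℤ) ∣ a - b) : (q : ℤ) ^ 2 ∣ a ^ q - b ^ q := by
  have := dvd_sub_pow_of_dvd_sub (R := ℤ) (p := q) (a := a) (b := b) h 1
  simpa using this

/-- `L q` of a multiple of the cyclotomic polynomial -/
theorem L_cyc (hq2 : q ≠ 2) (g : ℤ[X]) : (q : ℤ) ^ 2 ∣ L q ((∑ i ∈ range q, X ^ i) * g) := by
  have hodd : Odd q := hq.out.odd_of_ne_two hq2
  induction g using Polynomial.induction_on' with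
  | add f g hf hg =>
    rw [mul_add, L_add]
    exact dvd_add hf hg
  | monomial a c =>
    have h1 : (∑ i ∈ range q, (X : ℤ[X]) ^ i) * monomial a c
        = C c * ∑ i ∈ range q, X ^ (i + a) := by
      rw [Finset.sum_mul, Finset.mul_sum]
      refine Finset.sum_congr rfl fun i _ => ?_
      rw [← C_mul_X_pow_eq_monomial, pow_add]
      ring
    rw [h1, L_C_mul, L_sum]
    apply Dvd.dvd.mul_left
    simp only [L_X_pow]
    have key : ∀ a : ℕ, (q : ℤ) ^ 2 ∣ ∑ i ∈ range q, ((i + a : ℕ) : ℤ) ^ q := by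
      intro a
      induction a with
      | zero =>
        have h2 : (q : ℤ) ^ 2 ∣ 2 * ∑ i ∈ range q, ((i + 0 : ℕ) : ℤ) ^ q := by
          have hr := Finset.sum_range_reflect (fun i => ((i + 0 : ℕ) : ℤ) ^ q) q
          have h3 : ∑ i ∈ range q, (((i : ℕ) : ℤ) ^ q + ((q - 1 - i + 0 : ℕ) : ℤ) ^ q)
              = 2 * ∑ i ∈ range q, ((i + 0 : ℕ) : ℤ) ^ q := by
            rw [Finset.sum_add_distrib, hr]
            simp only [add_zero]
            ring
          have h4 : ∑ i ∈ range q, ((i : ℕ) : ℤ) ^ q = ∑ i ∈ range q, ((i + 1 : ℕ) : ℤ) ^ q - (q : ℤ) ^ q := by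
            have e1 := Finset.sum_range_succ (fun i : ℕ => ((i : ℕ) : ℤ) ^ q) q
            have e2 := Finset.sum_range_succ' (fun i : ℕ => ((i : ℕ) : ℤ) ^ q) q
            rw [e1] at e2
            have e3 : ((0 : ℕ) : ℤ) ^ q = 0 := by
              simp [hq.out.ne_zero]
            rw [e3] at e2
            linarith
          have h5 : 2 * ∑ i ∈ range q, ((i + 0 : ℕ) : ℤ) ^ q
              = ∑ i ∈ range q, (((i + 1 : ℕ) : ℤ) ^ q + ((q - 1 - i + 0 : ℕ) : ℤ) ^ q) - (q : ℤ) ^ q := by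
            rw [Finset.sum_add_distrib, hr]
            simp only [add_zero]
            linarith
          rw [h5]
          apply dvd_sub
          · apply Finset.dvd_sum
            intro i hi
            rw [Finset.mem_range] at hi
            have h6 : ((q - 1 - i + 0 : ℕ) : ℤ) = (q : ℤ) - (i + 1) := by
              push_cast [Nat.cast_sub (show 1 ≤ q from hq.out.one_lt.le), Nat.cast_sub (show i ≤ q - 1 by omega)]
              ring
            rw [h6]
            have h7 : (q : ℤ) ^ 2 ∣ ((q : ℤ) - (i + 1)) ^ q - (-((i : ℤ) + 1)) ^ q := by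
              apply pow_congr
              exact ⟨1, by ring⟩
            rw [hodd.neg_pow] at h7
            push_cast
            have h8 : ((i : ℤ) + 1) ^ q + ((q : ℤ) - (i + 1)) ^ q
                = ((q : ℤ) - (i + 1)) ^ q - -((i : ℤ) + 1) ^ q := by ring
            rw [h8]
            exact h7
          · exact pow_dvd_pow _ hq.out.two_le
        have hc : IsCoprime ((q : ℤ) ^ 2) 2 := by
          apply IsCoprime.pow_left
          rw [Int.isCoprime_iff_gcd_eq_one]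
          have : Int.gcd q 2 = Nat.gcd q 2 := by
            rw [Int.gcd_eq_natAbs]
            rfl
          rw [this]
          exact (Nat.coprime_two_right).mpr hodd
        exact hc.dvd_of_dvd_mul_left h2
      | succ a ih =>
        have e1 := Finset.sum_range_succ (fun i : ℕ => ((i + a : ℕ) : ℤ) ^ q) q
        have e2 := Finset.sum_range_succ' (fun i : ℕ => ((i + a : ℕ) : ℤ) ^ q) q
        rw [e1] at e2
        have e3 : ∑ i ∈ range q, ((i + 1 + a : ℕ) : ℤ) ^ q = ∑ i ∈ range q, ((i + (a + 1) : ℕ) : ℤ) ^ q := by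
          refine Finset.sum_congr rfl fun i _ => ?_
          congr 2
          omega
        rw [e3] at e2
        have h7 : (q : ℤ) ^ 2 ∣ ((q + a : ℕ) : ℤ) ^ q - ((0 + a : ℕ) : ℤ) ^ q := by
          apply pow_congr
          push_cast
          exact ⟨1, by ring⟩
        have h8 : ∑ i ∈ range q, ((i + (a + 1) : ℕ) : ℤ) ^ q = ∑ i ∈ range q, ((i + a : ℕ) : ℤ) ^ q
            + (((q + a : ℕ) : ℤ) ^ q - ((0 + a : ℕ) : ℤ) ^ q) := by linarith
        rw [h8]
        exact dvd_add ih h7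
    exact key a

end prime

end Pool.Agent.Lib.MP_d1f1b5_nt.KU
end

section
set_option autoImplicit false

/-!
The quasi-logarithm `F ↦ L q (F^q)` modulo `q^3` and the final congruence.
-/

namespace Pool.Agent.Lib.MP_d1f1b5_nt.KU

open Finset Polynomial

variable {q : ℕ} [hq : Fact q.Prime]

theorem L_q_mul (f g : ℤ[X]) :
    (q : ℤ) ^ 3 ∣ L q ((f * g) ^ q) - (f.eval 1 ^ q * L q (g ^ q) + g.eval 1 ^ q * L q (f ^ q)) := by
  have hqpos := hq.out.pos
  rw [mul_pow, L_mul, Finset.sum_range_succ, Finset.range_eq_Ico, Finset.sum_eq_sum_Ico_succ_bot hqpos]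
  simp only [Nat.choose_zero_right, Nat.choose_self, Nat.sub_zero, Nat.sub_self, L_zero_eval,
    eval_pow, Nat.cast_one, one_mul]
  have h1 : (q : ℤ) ^ 3 ∣ ∑ i ∈ Ico (0 + 1) q, (q.choose i : ℤ) * (L i (f ^ q) * L (q - i) (g ^ q)) := by
    apply Finset.dvd_sum
    intro i hi
    rw [Finset.mem_Ico] at hi
    have e1 : (q : ℤ) ∣ (q.choose i : ℤ) := by
      exact_mod_cast hq.out.dvd_choose_self (by omega) hi.2
    have e2 : (q : ℤ) ∣ L i (f ^ q) := L_pow_dvd q i f (by omega)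
    have e3 : (q : ℤ) ∣ L (q - i) (g ^ q) := L_pow_dvd q (q - i) g (by omega)
    have : (q : ℤ) ^ 3 = q * (q * q) := by ring
    rw [this]
    exact mul_dvd_mul e1 (mul_dvd_mul e2 e3)
  have h2 : f.eval 1 ^ q * L q (g ^ q)
      + ∑ i ∈ Ico (0 + 1) q, (q.choose i : ℤ) * (L i (f ^ q) * L (q - i) (g ^ q))
      + L q (f ^ q) * g.eval 1 ^ q
      - (f.eval 1 ^ q * L q (g ^ q) + g.eval 1 ^ q * L q (f ^ q))
      = ∑ i ∈ Ico (0 + 1) q, (q.choose i : ℤ) * (L i (f ^ q) * L (q - i) (g ^ q)) := by ring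
  rw [h2]
  exact h1

/-- `sum X^i = (X-1)^(q-1) + q c` -/
theorem cyc_mod : ∃ c : ℤ[X], ∑ i ∈ range q, (X : ℤ[X]) ^ i = (X - 1) ^ (q - 1) + C (q : ℤ) * c := by
  have h : C (q : ℤ) ∣ ∑ i ∈ range q, (X : ℤ[X]) ^ i - (X - 1) ^ (q - 1) := by
    rw [C_dvd_iff_dvd_coeff]
    have h0 : (∑ i ∈ range q, (X : ℤ[X]) ^ i - (X - 1) ^ (q - 1)).map (Int.castRingHom (ZMod q)) = 0 := by
      simp only [Polynomial.map_sub, Polynomial.map_pow, Polynomial.map_X, Polynomial.map_one,
        Polynomial.map_sum]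
      have hne : (X - 1 : (ZMod q)[X]) ≠ 0 := by
        have := X_sub_C_ne_zero (1 : ZMod q)
        simpa using this
      apply mul_right_cancel₀ hne
      rw [sub_mul, geom_sum_mul, ← pow_succ, Nat.sub_add_cancel hq.out.one_lt.le,
        sub_pow_char, one_pow]
      ring
    intro i
    have h1 := congrArg (fun P => P.coeff i) h0
    simp only [coeff_map, coeff_zero] at h1
    rw [← ZMod.intCast_zmod_eq_zero_iff_dvd]
    exact h1
  obtain ⟨c, hc⟩ := h
  exact ⟨c, by linear_combination hc⟩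

/-- `L q` of `(1+h)^q` for `h` in the ideal `((X-1)^(q+1), Phi_q)` -/
theorem L_one_add (hq2 : q ≠ 2) (A B : ℤ[X]) :
    (q : ℤ) ^ 3 ∣ L q ((1 + ((X - 1) ^ (q + 1) * A + (∑ i ∈ range q, X ^ i) * B)) ^ q) := by
  have hq3 : 3 ≤ q := by
    have := hq.out.two_le
    omega
  set h : ℤ[X] := (X - 1) ^ (q + 1) * A + (∑ i ∈ range q, X ^ i) * B with hh
  have hJ : ∀ g : ℤ[X], (q : ℤ) ^ 2 ∣ L q (h * g) := by
    intro g
    have : h * g = (X - 1) ^ (q + 1) * (A * g) + (∑ i ∈ range q, X ^ i) * (B * g) := by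
      rw [hh]
      ring
    rw [this, L_add, L_sub_one_pow (q + 1) q _ (by omega), zero_add]
    exact L_cyc hq2 _
  rw [add_comm, add_pow, L_sum]
  apply Finset.dvd_sum
  intro i hi
  have hi' := Finset.mem_range.mp hi
  have e0 : h ^ i * 1 ^ (q - i) * (q.choose i : ℤ[X]) = (q.choose i : ℤ[X]) * h ^ i := by
    rw [one_pow]
    ring
  rw [e0, L_natCast_mul]
  rcases Nat.eq_zero_or_pos i with h0 | h0
  · rw [h0, pow_zero, L_one hq.out.ne_zero, mul_zero]
    exact dvd_zero _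
  · by_cases hiq : i = q
    · rw [hiq, Nat.choose_self, Nat.cast_one, one_mul]
      obtain ⟨c, hc⟩ := cyc_mod (q := q)
      have e1 : h = (X - 1) ^ (q - 1) * ((X - 1) ^ 2 * A + B) + C (q : ℤ) * (c * B) := by
        rw [hh, hc]
        have : (X - 1 : ℤ[X]) ^ (q + 1) = (X - 1) ^ (q - 1) * (X - 1) ^ 2 := by
          rw [← pow_add]
          congr 1
          omega
        rw [this]
        ring
      set a : ℤ[X] := (X - 1) ^ 2 * A + B
      set b : ℤ[X] := c * B
      rw [e1, add_pow, L_sum]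
      apply Finset.dvd_sum
      intro k hk
      have hk' := Finset.mem_range.mp hk
      rcases Nat.lt_or_ge k 2 with hk2 | hk2
      · have hk3 : k = 0 ∨ k = 1 := by omega
        rcases hk3 with hk3 | hk3
        · subst hk3
          have e2 : ((X - 1) ^ (q - 1) * a) ^ 0 * (C (q : ℤ) * b) ^ (q - 0) * (q.choose 0 : ℤ[X])
              = C ((q : ℤ) ^ q) * b ^ q := by
            simp [mul_pow]
          rw [e2, L_C_mul]
          exact (pow_dvd_pow _ hq3).mul_right _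
        · subst hk3
          have e2 : ((X - 1) ^ (q - 1) * a) ^ 1 * (C (q : ℤ) * b) ^ (q - 1) * (q.choose 1 : ℤ[X])
              = C ((q : ℤ) ^ (q - 1) * q) * ((X - 1) ^ (q - 1) * a * b ^ (q - 1)) := by
            rw [Nat.choose_one_right, mul_pow (C (q : ℤ)) b, ← C_pow, C_mul]
            simp only [pow_one]
            have : (C (q : ℤ) : ℤ[X]) = (q : ℤ[X]) := by simp
            rw [this]
            ring
          rw [e2, L_C_mul]
          apply Dvd.dvd.mul_right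
          rw [← pow_succ]
          exact pow_dvd_pow _ (by omega)
      · have e2 : ((X - 1) ^ (q - 1) * a) ^ k * (C (q : ℤ) * b) ^ (q - k) * (q.choose k : ℤ[X])
            = (X - 1) ^ ((q - 1) * k) * (a ^ k * (C (q : ℤ) * b) ^ (q - k) * (q.choose k : ℤ[X])) := by
          rw [mul_pow, ← pow_mul]
          ring
        have hlt : q < (q - 1) * k := by
          have : (q - 1) * 2 ≤ (q - 1) * k := Nat.mul_le_mul_left _ hk2
          omega
        have e3 : L q ((X - 1) ^ ((q - 1) * k)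
            * (a ^ k * (C (q : ℤ) * b) ^ (q - k) * (q.choose k : ℤ[X]))) = 0 :=
          L_sub_one_pow ((q - 1) * k) q _ hlt
        rw [e2, e3]
        exact dvd_zero _
    · have e1 : (q : ℤ) ∣ (q.choose i : ℤ) := by
        exact_mod_cast hq.out.dvd_choose_self (by omega) (by omega)
      obtain ⟨k, rfl⟩ : ∃ k, i = k + 1 := ⟨i - 1, by omega⟩
      have e5 : (q : ℤ) ^ 3 = q * q ^ 2 := by ring
      have e4 : h ^ (k + 1) = h * h ^ k := pow_succ' h k
      rw [e5, e4]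
      exact mul_dvd_mul e1 (hJ (h ^ k))

/-- bookkeeping of values at one and quasi-logarithms -/
def Sp (q : ℕ) (c : ℤ) (F : ℤ[X]) (n : ℕ) (lam : ℤ) : Prop :=
  F.eval 1 = c ^ n ∧ (q : ℤ) ^ 3 ∣ c ^ q * L q (F ^ q) - c ^ (q * n) * lam

theorem Sp_one (c : ℤ) : Sp q c 1 0 0 := by
  refine ⟨by simp, ?_⟩
  rw [one_pow, L_one hq.out.ne_zero]
  simp

theorem Sp_mul {c : ℤ} {F G : ℤ[X]} {n m : ℕ} {lam mu : ℤ} (hF : Sp q c F n lam)
    (hG : Sp q c G m mu) : Sp q c (F * G) (n + m) (lam + mu) := by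
  obtain ⟨f1, f2⟩ := hF
  obtain ⟨g1, g2⟩ := hG
  refine ⟨by rw [eval_mul, f1, g1, pow_add], ?_⟩
  have h := L_q_mul (q := q) F G
  rw [f1, g1] at h
  have e : c ^ q * L q ((F * G) ^ q) - c ^ (q * (n + m)) * (lam + mu)
      = c ^ q * (L q ((F * G) ^ q) - ((c ^ n) ^ q * L q (G ^ q) + (c ^ m) ^ q * L q (F ^ q)))
        + (c ^ n) ^ q * (c ^ q * L q (G ^ q) - c ^ (q * m) * mu)
        + (c ^ m) ^ q * (c ^ q * L q (F ^ q) - c ^ (q * n) * lam) := by
    have e1 : c ^ (q * (n + m)) = (c ^ n) ^ q * (c ^ m) ^ q := by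
      rw [← pow_mul, ← pow_mul, ← pow_add]
      congr 1
      ring
    have e2 : c ^ (q * n) = (c ^ n) ^ q := by rw [← pow_mul, mul_comm]
    have e3 : c ^ (q * m) = (c ^ m) ^ q := by rw [← pow_mul, mul_comm]
    rw [e1, e2, e3]
    ring
  rw [e]
  exact dvd_add (dvd_add (h.mul_left _) (g2.mul_left _)) (f2.mul_left _)

theorem Sp_pow {c : ℤ} {F : ℤ[X]} {n : ℕ} {lam : ℤ} (hF : Sp q c F n lam) (e : ℕ) :
    Sp q c (F ^ e) (e * n) (e * lam) := by
  induction e with
  | zero =>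
    simpa using Sp_one (q := q) c
  | succ e ih =>
    have := Sp_mul ih hF
    rw [pow_succ]
    convert this using 1
    · ring
    · push_cast
      ring

theorem Sp_prod {ι : Type*} {c : ℤ} (s : Finset ι) (F : ι → ℤ[X]) (e : ι → ℕ) (lam : ι → ℤ)
    (h : ∀ i ∈ s, Sp q c (F i) 1 (lam i)) :
    Sp q c (∏ i ∈ s, F i ^ e i) (∑ i ∈ s, e i) (∑ i ∈ s, e i * lam i) := by
  classical
  induction s using Finset.induction_on with
  | empty => simpa using Sp_one (q := q) c
  | insert a s ha ih =>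
    rw [Finset.prod_insert ha, Finset.sum_insert ha, Finset.sum_insert ha]
    apply Sp_mul
    · have := Sp_pow (h a (Finset.mem_insert_self a s)) (e a)
      simpa using this
    · exact ih fun i hi => h i (Finset.mem_insert_of_mem hi)

omit hq in
theorem Sp_base (x : ℤ) (k : ℕ) :
    Sp q (x - 1) (C x - X ^ k) 1 ((k : ℤ) ^ q * L q ((C x - X) ^ q)) := by
  refine ⟨by simp, ?_⟩
  have h1 : (C x - X ^ k : ℤ[X]) ^ q = expand ℤ k ((C x - X) ^ q) := by
    simp
  rw [h1, L_expand, mul_one, sub_self]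
  exact dvd_zero _

theorem coprime_pow {c : ℤ} (hc : ¬ (q : ℤ) ∣ c) (n : ℕ) : IsCoprime ((q : ℤ) ^ 3) (c ^ n) := by
  apply IsCoprime.pow
  exact (Nat.prime_iff_prime_int.mp hq.out).coprime_iff_not_dvd.mpr hc

/-- `C(q-1,k) = (-1)^k mod q` -/
theorem choose_mod (k : ℕ) (hk : k < q) : (q : ℤ) ∣ ((q - 1).choose k : ℤ) - (-1) ^ k := by
  induction k with
  | zero => simp
  | succ k ih =>
    have h1 := ih (by omega)
    have h2 : (q : ℤ) ∣ (q.choose (k + 1) : ℤ) := by
      exact_mod_cast hq.out.dvd_choose_self (by omega) hk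
    have h3 : (q.choose (k + 1) : ℤ) = ((q - 1).choose k : ℤ) + ((q - 1).choose (k + 1) : ℤ) := by
      have : q = (q - 1) + 1 := by
        have := hq.out.pos
        omega
      conv_lhs => rw [this]
      rw [Nat.choose_succ_succ']
      push_cast
      ring
    have h4 : ((q - 1).choose (k + 1) : ℤ) - (-1) ^ (k + 1)
        = (q.choose (k + 1) : ℤ) - (((q - 1).choose k : ℤ) - (-1) ^ k) := by
      rw [h3, pow_succ]
      ring
    rw [h4]
    exact dvd_sub h2 h1

/-- the explicit congruence -/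
theorem final_congr (hq2 : q ≠ 2) {x : ℤ} (h : (q : ℤ) ^ 3 ∣ L q ((C x - X) ^ q)) :
    (q : ℤ) ^ 2 ∣ (x - 1) ^ (q - 1) + ∑ m ∈ Ico 1 q, ((m : ℤ) ^ (q - 1) - 1) * x ^ (q - m) - 1 := by
  have hq3 : 3 ≤ q := by
    have := hq.out.two_le
    omega
  have hqpos := hq.out.pos
  have hodd : Odd q := hq.out.odd_of_ne_two hq2
  have hev : Even (q - 1) := by
    rw [Nat.even_iff]
    have := Nat.odd_iff.mp hodd
    omega
  -- expansion of L q ((C x - X)^q)
  have e1 : L q ((C x - X) ^ q) = ∑ m ∈ range (q + 1), (-1) ^ m * x ^ (q - m) * (q.choose m : ℤ) * (m : ℤ) ^ q := by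
    have : (C x - X : ℤ[X]) ^ q = (-X + C x) ^ q := by ring
    rw [this, add_pow, L_sum]
    refine Finset.sum_congr rfl fun m _ => ?_
    have : (-X : ℤ[X]) ^ m * (C x) ^ (q - m) * (q.choose m : ℤ[X])
        = C ((-1) ^ m * x ^ (q - m) * (q.choose m : ℤ)) * X ^ m := by
      rw [neg_pow]
      simp only [map_mul, map_pow, map_neg, map_one, map_natCast]
      ring
    rw [this, L_C_mul, L_X_pow]
  rw [e1, Finset.sum_range_succ, Finset.range_eq_Ico, Finset.sum_eq_sum_Ico_succ_bot hqpos] at h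
  have e2 : (-1 : ℤ) ^ 0 * x ^ (q - 0) * (q.choose 0 : ℤ) * ((0 : ℕ) : ℤ) ^ q = 0 := by
    rw [Nat.cast_zero, zero_pow hq.out.ne_zero, mul_zero]
  rw [e2, zero_add, Nat.sub_self, Nat.choose_self] at h
  have e3 : ∑ m ∈ Ico (0 + 1) q, (-1 : ℤ) ^ m * x ^ (q - m) * (q.choose m : ℤ) * (m : ℤ) ^ q
      = q * ∑ m ∈ Ico 1 q, (-1 : ℤ) ^ m * ((q - 1).choose (m - 1) : ℤ) * (m : ℤ) ^ (q - 1) * x ^ (q - m) := by
    rw [Finset.mul_sum]
    refine Finset.sum_congr rfl fun m hm => ?_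
    rw [Finset.mem_Ico] at hm
    have h1 : (q.choose m : ℤ) * m = q * ((q - 1).choose (m - 1) : ℤ) := by
      have := Nat.add_one_mul_choose_eq (q - 1) (m - 1)
      rw [Nat.sub_add_cancel hq.out.one_lt.le, Nat.sub_add_cancel (by omega : 1 ≤ m)] at this
      exact_mod_cast this.symm
    have h2 : (m : ℤ) ^ q = m * (m : ℤ) ^ (q - 1) := by
      rw [← pow_succ']
      congr 1
      omega
    rw [h2]
    linear_combination ((-1 : ℤ) ^ m * x ^ (q - m) * (m : ℤ) ^ (q - 1)) * h1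
  rw [e3] at h
  set S := ∑ m ∈ Ico 1 q, (-1 : ℤ) ^ m * ((q - 1).choose (m - 1) : ℤ) * (m : ℤ) ^ (q - 1) * x ^ (q - m) with hS
  have hS2 : (q : ℤ) ^ 2 ∣ S := by
    have h1 : (q : ℤ) ^ 3 ∣ q * S := by
      have h2 : (q : ℤ) ^ 3 ∣ (-1 : ℤ) ^ q * x ^ 0 * ((1 : ℕ) : ℤ) * (q : ℤ) ^ q :=
        (pow_dvd_pow _ hq3).mul_left _
      have h3 := dvd_sub h h2
      have : q * S + (-1 : ℤ) ^ q * x ^ 0 * ((1 : ℕ) : ℤ) * (q : ℤ) ^ q
          - (-1 : ℤ) ^ q * x ^ 0 * ((1 : ℕ) : ℤ) * (q : ℤ) ^ q = q * S := by ring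
      rw [this] at h3
      exact h3
    have h4 : (q : ℤ) ^ 3 = q * q ^ 2 := by ring
    rw [h4] at h1
    have hq0 : (q : ℤ) ≠ 0 := by exact_mod_cast hq.out.ne_zero
    exact (mul_dvd_mul_iff_left hq0).mp h1
  -- first part of the sum
  have e4 : ∑ m ∈ Ico 1 q, (-1 : ℤ) ^ m * ((q - 1).choose (m - 1) : ℤ) * x ^ (q - m) = 1 - (x - 1) ^ (q - 1) := by
    have h1 : (x - 1) ^ (q - 1) = ∑ k ∈ range q, (-1 : ℤ) ^ k * x ^ (q - 1 - k) * ((q - 1).choose k : ℤ) := by
      have : (x - 1) ^ (q - 1) = (-1 + x) ^ (q - 1) := by ring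
      rw [this, add_pow, Nat.sub_add_cancel hq.out.one_lt.le]
    have h2 : ∑ k ∈ range q, (-1 : ℤ) ^ k * x ^ (q - 1 - k) * ((q - 1).choose k : ℤ)
        = ∑ k ∈ range (q - 1), (-1 : ℤ) ^ k * x ^ (q - 1 - k) * ((q - 1).choose k : ℤ) + 1 := by
      have h9 : range q = range (q - 1 + 1) := by rw [Nat.sub_add_cancel hq.out.one_lt.le]
      rw [h9, Finset.sum_range_succ, Nat.choose_self, hev.neg_one_pow, Nat.sub_self]
      simp
    have h3 : ∑ m ∈ Ico 1 q, (-1 : ℤ) ^ m * ((q - 1).choose (m - 1) : ℤ) * x ^ (q - m)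
        = - ∑ k ∈ range (q - 1), (-1 : ℤ) ^ k * x ^ (q - 1 - k) * ((q - 1).choose k : ℤ) := by
      rw [Finset.sum_Ico_eq_sum_range, ← Finset.sum_neg_distrib]
      refine Finset.sum_congr rfl fun k _ => ?_
      have h5 : 1 + k - 1 = k := by omega
      have h6 : q - (1 + k) = q - 1 - k := by omega
      rw [h5, h6, pow_add]
      ring
    rw [h3, h1, h2]
    ring
  -- second part
  have e5 : (q : ℤ) ^ 2 ∣ ∑ m ∈ Ico 1 q, ((-1 : ℤ) ^ m * ((q - 1).choose (m - 1) : ℤ) + 1)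
      * ((m : ℤ) ^ (q - 1) - 1) * x ^ (q - m) := by
    apply Finset.dvd_sum
    intro m hm
    rw [Finset.mem_Ico] at hm
    apply Dvd.dvd.mul_right
    rw [pow_two]
    apply mul_dvd_mul
    · have h1 := choose_mod (q := q) (m - 1) (by omega)
      have h2 : (-1 : ℤ) ^ m * ((q - 1).choose (m - 1) : ℤ) + 1
          = (-1) ^ m * (((q - 1).choose (m - 1) : ℤ) - (-1) ^ (m - 1)) := by
        have h3 : (-1 : ℤ) ^ m = (-1) ^ (m - 1) * (-1) := by
          rw [← pow_succ]
          congr 1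
          omega
        have h4 : (-1 : ℤ) ^ (m - 1) * (-1) ^ (m - 1) = 1 := by
          rw [← mul_pow]
          simp
        rw [h3]
        linear_combination -h4
      rw [h2]
      exact h1.mul_left _
    · rw [← ZMod.intCast_zmod_eq_zero_iff_dvd]
      push_cast
      have hm0 : (m : ZMod q) ≠ 0 := by
        intro h0
        rw [ZMod.natCast_eq_zero_iff] at h0
        have := Nat.le_of_dvd (by omega) h0
        omega
      rw [ZMod.pow_card_sub_one_eq_one hm0, sub_self]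
  have e6 : (x - 1) ^ (q - 1) + ∑ m ∈ Ico 1 q, ((m : ℤ) ^ (q - 1) - 1) * x ^ (q - m) - 1
      = ∑ m ∈ Ico 1 q, ((-1 : ℤ) ^ m * ((q - 1).choose (m - 1) : ℤ) + 1)
      * ((m : ℤ) ^ (q - 1) - 1) * x ^ (q - m) - S := by
    have : (x - 1) ^ (q - 1) = 1 - ∑ m ∈ Ico 1 q, (-1 : ℤ) ^ m * ((q - 1).choose (m - 1) : ℤ) * x ^ (q - m) := by
      rw [e4]
      ring
    rw [this, hS, ← Finset.sum_sub_distrib]
    have h7 : (1 - ∑ m ∈ Ico 1 q, (-1 : ℤ) ^ m * ((q - 1).choose (m - 1) : ℤ) * x ^ (q - m)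
        + ∑ m ∈ Ico 1 q, ((m : ℤ) ^ (q - 1) - 1) * x ^ (q - m) - 1)
        = ∑ m ∈ Ico 1 q, ((m : ℤ) ^ (q - 1) - 1) * x ^ (q - m)
        - ∑ m ∈ Ico 1 q, (-1 : ℤ) ^ m * ((q - 1).choose (m - 1) : ℤ) * x ^ (q - m) := by ring
    rw [h7, ← Finset.sum_sub_distrib]
    refine Finset.sum_congr rfl fun m _ => ?_
    ring
  rw [e6]
  exact dvd_sub e5 hS2

/-- the Stickelberger product of `x - X` -/
noncomputable def PP (q : ℕ) [Fact q.Prime] (x : ℤ) : ℤ[X] :=
  ∏ i ∈ (univ : Finset (ZMod q)).erase 0, (C x - X ^ i.val) ^ (i⁻¹).val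

theorem main_log (hq2 : q ≠ 2) {x : ℤ} (hx : ¬ (q : ℤ) ∣ x - 1) {s : ℤ} (hs : s = 1 ∨ s = -1)
    (r : ℕ) (A B : ℤ[X])
    (hE : C s * X ^ r * PP q x = 1 + ((X - 1) ^ (q + 1) * A + (∑ i ∈ range q, X ^ i) * B)) :
    (q : ℤ) ^ 3 ∣ L q ((C x - X) ^ q) := by
  have hq3 : 3 ≤ q := by
    have := hq.out.two_le
    omega
  have h1 := L_one_add hq2 A B
  rw [← hE] at h1
  have h2 := L_q_mul (q := q) (C s * X ^ r) (PP q x)
  have h3 : (q : ℤ) ^ 3 ∣ L q ((C s * X ^ r) ^ q) := by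
    have : (C s * X ^ r : ℤ[X]) ^ q = C (s ^ q) * X ^ (r * q) := by
      rw [mul_pow, ← C_pow, ← pow_mul]
    rw [this, L_C_mul, L_X_pow]
    push_cast
    rw [mul_pow]
    exact ((pow_dvd_pow _ hq3).mul_left _).mul_left _
  have hs2 : ((C s * X ^ r : ℤ[X]).eval 1) ^ q * ((C s * X ^ r : ℤ[X]).eval 1) ^ q = 1 := by
    rw [← mul_pow]
    rcases hs with rfl | rfl <;> simp
  have h4 : (q : ℤ) ^ 3 ∣ L q ((PP q x) ^ q) := by
    have e : L q ((PP q x) ^ q) = ((C s * X ^ r : ℤ[X]).eval 1) ^ q *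
        (L q ((C s * X ^ r * PP q x) ^ q)
        - (L q ((C s * X ^ r * PP q x) ^ q) - (((C s * X ^ r : ℤ[X]).eval 1) ^ q * L q ((PP q x) ^ q)
          + (PP q x).eval 1 ^ q * L q ((C s * X ^ r) ^ q)))
        - (PP q x).eval 1 ^ q * L q ((C s * X ^ r) ^ q)) := by
      have : ((C s * X ^ r : ℤ[X]).eval 1) ^ q *
        (L q ((C s * X ^ r * PP q x) ^ q)
        - (L q ((C s * X ^ r * PP q x) ^ q) - (((C s * X ^ r : ℤ[X]).eval 1) ^ q * L q ((PP q x) ^ q)
          + (PP q x).eval 1 ^ q * L q ((C s * X ^ r) ^ q)))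
        - (PP q x).eval 1 ^ q * L q ((C s * X ^ r) ^ q))
        = (((C s * X ^ r : ℤ[X]).eval 1) ^ q * ((C s * X ^ r : ℤ[X]).eval 1) ^ q) * L q ((PP q x) ^ q) := by
        ring
      rw [this, hs2, one_mul]
    rw [e]
    exact (dvd_sub (dvd_sub h1 h2) (h3.mul_left _)).mul_left _
  have hSp := Sp_prod (q := q) (c := x - 1) ((univ : Finset (ZMod q)).erase 0)
    (fun i => C x - X ^ i.val) (fun i => (i⁻¹).val) (fun i => ((i.val : ℕ) : ℤ) ^ q * L q ((C x - X) ^ q))
    (fun i _ => Sp_base x i.val)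
  obtain ⟨_, h5⟩ := hSp
  have h6 : (q : ℤ) ^ 3 ∣ (x - 1) ^ (q * ∑ i ∈ (univ : Finset (ZMod q)).erase 0, (i⁻¹).val)
      * ∑ i ∈ (univ : Finset (ZMod q)).erase 0,
        (((i⁻¹).val : ℕ) : ℤ) * (((i.val : ℕ) : ℤ) ^ q * L q ((C x - X) ^ q)) := by
    have h7 := dvd_sub (h4.mul_left ((x - 1) ^ q)) h5
    have e : (x - 1) ^ q * L q ((PP q x) ^ q) - ((x - 1) ^ q *
        L q ((∏ i ∈ (univ : Finset (ZMod q)).erase 0, (C x - X ^ i.val) ^ (i⁻¹).val) ^ q) -
        (x - 1) ^ (q * ∑ i ∈ (univ : Finset (ZMod q)).erase 0, (i⁻¹).val) *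
        ∑ i ∈ (univ : Finset (ZMod q)).erase 0,
          (((i⁻¹).val : ℕ) : ℤ) * (((i.val : ℕ) : ℤ) ^ q * L q ((C x - X) ^ q)))
        = (x - 1) ^ (q * ∑ i ∈ (univ : Finset (ZMod q)).erase 0, (i⁻¹).val) *
        ∑ i ∈ (univ : Finset (ZMod q)).erase 0,
          (((i⁻¹).val : ℕ) : ℤ) * (((i.val : ℕ) : ℤ) ^ q * L q ((C x - X) ^ q)) := by
      unfold PP
      ring
    rw [e] at h7
    exact h7
  have h8 := (coprime_pow hx _).dvd_of_dvd_mul_left h6
  have h9 : ∑ i ∈ (univ : Finset (ZMod q)).erase 0,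
        (((i⁻¹).val : ℕ) : ℤ) * (((i.val : ℕ) : ℤ) ^ q * L q ((C x - X) ^ q))
      = (∑ i ∈ (univ : Finset (ZMod q)).erase 0,
        (((i⁻¹).val : ℕ) : ℤ) * ((i.val : ℕ) : ℤ) ^ q) * L q ((C x - X) ^ q) := by
    rw [Finset.sum_mul]
    refine Finset.sum_congr rfl fun i _ => ?_
    ring
  rw [h9] at h8
  have h10 : ¬ (q : ℤ) ∣ ∑ i ∈ (univ : Finset (ZMod q)).erase 0,
        (((i⁻¹).val : ℕ) : ℤ) * ((i.val : ℕ) : ℤ) ^ q := by
    intro h11
    rw [← ZMod.intCast_zmod_eq_zero_iff_dvd] at h11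
    push_cast at h11
    have h12 : ∀ i ∈ (univ : Finset (ZMod q)).erase 0,
        (((i⁻¹).val : ℕ) : ZMod q) * ((i.val : ℕ) : ZMod q) ^ q = 1 := by
      intro i hi
      have hi0 : i ≠ 0 := Finset.ne_of_mem_erase hi
      rw [ZMod.natCast_zmod_val, ZMod.natCast_zmod_val, ZMod.pow_card, inv_mul_cancel₀ hi0]
    rw [Finset.sum_congr rfl h12] at h11
    simp only [Finset.sum_const, nsmul_eq_mul, mul_one] at h11
    rw [Finset.card_erase_of_mem (Finset.mem_univ _), Finset.card_univ, ZMod.card,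
      ZMod.natCast_eq_zero_iff] at h11
    have := Nat.le_of_dvd (by omega) h11
    omega
  have h11 := coprime_pow (q := q) h10 1
  rw [pow_one] at h11
  exact h11.dvd_of_dvd_mul_left h8

end Pool.Agent.Lib.MP_d1f1b5_nt.KU
end

section
set_option autoImplicit false

/-!
The Gauss sum of a character of order `q` modulo `l` with `rho(q) = 1` satisfies
`(-G)^q = 1 mod (1-zeta)^(q+1)`.
-/

namespace Pool.Agent.Lib.MP_d1f1b5_nt.KU

open Finset Polynomial

variable {R : Type*} [CommRing R] {q : ℕ} [hq : Fact q.Prime]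

/-- `q = - pi^(q-1) + pi^q w` for `pi = 1 - z` -/
theorem q_eq (hq2 : q ≠ 2) {z : R} (hz : ∑ i ∈ range q, z ^ i = 0) :
    ∃ w : R, (q : R) = -(1 - z) ^ (q - 1) + (1 - z) ^ q * w := by
  have hodd : Odd q := hq.out.odd_of_ne_two hq2
  have hev : Even (q - 1) := by
    rw [Nat.even_iff]
    have := Nat.odd_iff.mp hodd
    omega
  obtain ⟨c, hc⟩ := cyc_mod (q := q)
  have hc1 : c.eval 1 = 1 := by
    have h1 := congrArg (eval 1) hc
    have hq1 : q - 1 ≠ 0 := by
      have := hq.out.one_lt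
      omega
    simp only [eval_finsetSum, eval_add, eval_mul, eval_pow, eval_sub, eval_X, eval_one, eval_C,
      one_pow, sum_const, card_range, nsmul_eq_mul, mul_one, sub_self, zero_pow hq1, zero_add] at h1
    have hq0 : (q : ℤ) ≠ 0 := by exact_mod_cast hq.out.ne_zero
    have : (q : ℤ) * c.eval 1 = q * 1 := by linarith
    exact mul_left_cancel₀ hq0 this
  have h2 := congrArg (fun P => aeval z P) hc
  simp only [map_sum, map_add, map_mul, map_pow, map_sub, aeval_X, map_one, aeval_C, hz] at h2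
  have h3 : ∃ v : R, aeval z c = 1 + (1 - z) * v := by
    have h4 : (X - C 1 : ℤ[X]) ∣ c - C (c.eval 1) := X_sub_C_dvd_sub_C_eval
    obtain ⟨d, hd⟩ := h4
    have h5 := congrArg (fun P => aeval z P) hd
    simp only [map_sub, map_mul, aeval_X, hc1, map_one] at h5
    exact ⟨-(aeval z d), by linear_combination h5⟩
  obtain ⟨v, hv⟩ := h3
  rw [hv] at h2
  have h4 : (z - 1) ^ (q - 1) = (1 - z) ^ (q - 1) := by
    have : z - 1 = -(1 - z) := by ring
    rw [this, hev.neg_pow]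
  rw [h4] at h2
  have h5 : (algebraMap ℤ R) (q : ℤ) = (q : R) := by simp
  rw [h5] at h2
  set π : R := 1 - z with hπ
  have h6 : (q : R) = -π ^ (q - 1) - q * π * v := by linear_combination -h2
  have h7 : ∀ k : ℕ, k ≤ q - 1 → ∃ u : R, (q : R) = π ^ k * u := by
    intro k
    induction k with
    | zero =>
      intro _
      exact ⟨q, by simp⟩
    | succ k ih =>
      intro hk
      obtain ⟨u, hu⟩ := ih (by omega)
      refine ⟨-π ^ (q - 1 - (k + 1)) - u * v, ?_⟩
      have h8 : π ^ (q - 1) = π ^ (k + 1) * π ^ (q - 1 - (k + 1)) := by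
        rw [← pow_add]
        congr 1
        omega
      rw [h6, h8]
      have : (q : R) * π * v = π ^ (k + 1) * (u * v) := by
        rw [hu, pow_succ]
        ring
      rw [this]
      ring
  obtain ⟨u, hu⟩ := h7 (q - 1) le_rfl
  refine ⟨-(u * v), ?_⟩
  have h9 : π ^ q = π ^ (q - 1) * π := by
    rw [← pow_succ]
    congr 1
    have := hq.out.pos
    omega
  rw [h9]
  have : (q : R) * π * v = π ^ (q - 1) * π * (u * v) := by
    conv_lhs => rw [hu]
    ring
  rw [h6, this]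
  ring

theorem one_add_pow_q (hq2 : q ≠ 2) (y : R) :
    ∃ r : R, (1 + y) ^ q = 1 + q * y + y ^ q + q * y ^ 2 * r := by
  have hq3 : 3 ≤ q := by
    have := hq.out.two_le
    omega
  have h1 : (1 + y) ^ q = (y + 1) ^ q := by ring
  rw [h1, add_pow, Finset.sum_range_succ, Finset.range_eq_Ico,
    Finset.sum_eq_sum_Ico_succ_bot (by omega : 0 < q),
    Finset.sum_eq_sum_Ico_succ_bot (by omega : 0 + 1 < q)]
  have h2 : ∀ i ∈ Ico (0 + 1 + 1) q, ∃ r : R, y ^ i * 1 ^ (q - i) * (q.choose i : R) = q * y ^ 2 * r := by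
    intro i hi
    rw [Finset.mem_Ico] at hi
    obtain ⟨c, hc⟩ := hq.out.dvd_choose_self (k := i) (by omega) hi.2
    refine ⟨y ^ (i - 2) * c, ?_⟩
    have : y ^ i = y ^ 2 * y ^ (i - 2) := by
      rw [← pow_add]
      congr 1
      omega
    rw [hc, this, one_pow]
    push_cast
    ring
  choose! r hr using h2
  refine ⟨∑ i ∈ Ico (0 + 1 + 1) q, r i, ?_⟩
  rw [Finset.sum_congr rfl hr, ← Finset.mul_sum]
  simp only [pow_zero, one_pow, Nat.choose_zero_right, Nat.cast_one, zero_add, pow_one,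
    Nat.choose_one_right, Nat.choose_self, mul_one]
  ring

theorem sum_pow_q {ι : Type*} (s : Finset ι) (f : ι → R) :
    ∃ r : R, (∑ i ∈ s, f i) ^ q = ∑ i ∈ s, f i ^ q + q * r := by
  classical
  induction s using Finset.induction_on with
  | empty => exact ⟨0, by simp [hq.out.ne_zero]⟩
  | insert a s ha ih =>
    obtain ⟨r, hr⟩ := ih
    obtain ⟨r', hr'⟩ := exists_add_pow_prime_eq hq.out (f a) (∑ i ∈ s, f i)
    refine ⟨r + f a * (∑ i ∈ s, f i) * r', ?_⟩
    rw [Finset.sum_insert ha, Finset.sum_insert ha, hr', hr]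
    ring

omit hq in
theorem natCast_sub_dvd {a b : ℕ} (h : a ≡ b [MOD q]) : ∃ r : R, (a : R) = b + q * r := by
  have h1 : (q : ℤ) ∣ (a : ℤ) - b := by
    have := (Int.natCast_modEq_iff.mpr h).symm
    exact (Int.modEq_iff_dvd).mp this
  obtain ⟨c, hc⟩ := h1
  refine ⟨(c : R), ?_⟩
  have h2 : ((a : ℤ) : R) = ((b : ℤ) : R) + ((q : ℤ) : R) * (c : R) := by
    rw [← Int.cast_mul, ← Int.cast_add]
    congr 1
    linarith
  simpa using h2

/-- the congruence for the Gauss sum -/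
theorem gauss_congr (hq2 : q ≠ 2) {l : ℕ} [Fact l.Prime] {z : R} (hz : ∑ i ∈ range q, z ^ i = 0)
    (ψ : AddChar (ZMod l) R) (hψ : ∑ t, ψ t = 0) (ρ : MulChar (ZMod l) R) (b : ZMod l → ℕ)
    (hρ : ∀ t, t ≠ 0 → ρ t = z ^ b t) (hql : (q : ZMod l) ≠ 0)
    (hb : ∀ t, t ≠ 0 → b ((q : ZMod l) * t) ≡ b t [MOD q]) :
    (1 - z) ^ (q + 1) ∣ (-gaussSum ρ ψ) ^ q - 1 := by
  classical
  obtain ⟨w, hw⟩ := q_eq hq2 hz
  set π : R := 1 - z with hπ
  have hπq : π ∣ (q : R) := by
    rw [hw]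
    apply dvd_add
    · rw [dvd_neg]
      apply dvd_pow_self
      have := hq.out.one_lt
      omega
    · exact (dvd_pow_self _ hq.out.ne_zero).mul_right _
  set T : Finset (ZMod l) := univ.erase 0 with hT
  have hTne : ∀ t ∈ T, t ≠ 0 := fun t ht => Finset.ne_of_mem_erase ht
  have hsum1 : ∑ t ∈ T, ψ t = -1 := by
    have := Finset.add_sum_erase univ (fun t => ψ t) (Finset.mem_univ (0 : ZMod l))
    simp only [hψ, AddChar.map_zero_eq_one] at this
    linear_combination this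
  have hG : gaussSum ρ ψ = ∑ t ∈ T, z ^ b t * ψ t := by
    unfold gaussSum
    rw [← Finset.add_sum_erase univ _ (Finset.mem_univ (0 : ZMod l))]
    rw [MulChar.map_zero, zero_mul, zero_add]
    exact Finset.sum_congr rfl fun t ht => by rw [hρ t (hTne t ht)]
  set κ : R := ∑ t ∈ T, (∑ i ∈ range (b t), z ^ i) * ψ t with hκ
  have hGκ : -gaussSum ρ ψ = 1 + π * κ := by
    have h1 : π * κ = ∑ t ∈ T, ψ t - ∑ t ∈ T, z ^ b t * ψ t := by
      rw [hκ, Finset.mul_sum, ← Finset.sum_sub_distrib]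
      refine Finset.sum_congr rfl fun t _ => ?_
      have h2 := geom_sum_mul z (b t)
      rw [hπ]
      linear_combination -(ψ t) * h2
    rw [h1, hsum1, hG]
    ring
  set κ0 : R := ∑ t ∈ T, (b t : R) * ψ t with hκ0
  have h3 : π ∣ κ - κ0 := by
    rw [hκ, hκ0, ← Finset.sum_sub_distrib]
    apply Finset.dvd_sum
    intro t _
    rw [← sub_mul]
    apply Dvd.dvd.mul_right
    have : (b t : R) = ∑ i ∈ range (b t), 1 := by simp
    rw [this, ← Finset.sum_sub_distrib]
    apply Finset.dvd_sum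
    intro i _
    have h4 := sub_dvd_pow_sub_pow z 1 i
    rw [one_pow] at h4
    have h5 : z - 1 = -π := by
      rw [hπ]
      ring
    rw [h5, neg_dvd] at h4
    exact h4
  have h4 : π ∣ κ ^ q - κ0 ^ q := h3.trans (sub_dvd_pow_sub_pow κ κ0 q)
  have h5 : π ∣ κ0 ^ q - κ0 := by
    obtain ⟨r, hr⟩ := sum_pow_q (q := q) T (fun t => (b t : R) * ψ t)
    have h6 : ∀ t ∈ T, ∃ r : R, ((b t : R) * ψ t) ^ q = (b ((q : ZMod l) * t) : R) * ψ ((q : ZMod l) * t) + q * r := by
      intro t ht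
      have hpow : (b t) ^ q ≡ b t [MOD q] := by
        have : ((b t ^ q : ℕ) : ZMod q) = ((b t : ℕ) : ZMod q) := by
          push_cast
          exact ZMod.pow_card _
        exact (ZMod.natCast_eq_natCast_iff _ _ _).mp this
      obtain ⟨r1, hr1⟩ := natCast_sub_dvd (R := R) (hpow.trans (hb t (hTne t ht)).symm)
      refine ⟨r1 * ψ ((q : ZMod l) * t), ?_⟩
      have h7 : ψ t ^ q = ψ ((q : ZMod l) * t) := by
        rw [← AddChar.map_nsmul_eq_pow, nsmul_eq_mul]
      rw [mul_pow, h7]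
      push_cast at hr1
      rw [hr1]
      ring
    choose! r2 hr2 using h6
    have h7 : ∑ t ∈ T, (b ((q : ZMod l) * t) : R) * ψ ((q : ZMod l) * t) = κ0 := by
      rw [hκ0]
      refine Finset.sum_nbij' (fun t => (q : ZMod l) * t) (fun t => (q : ZMod l)⁻¹ * t) ?_ ?_ ?_ ?_ ?_
      · intro t ht
        rw [hT, Finset.mem_erase]
        exact ⟨mul_ne_zero hql (hTne t ht), Finset.mem_univ _⟩
      · intro t ht
        rw [hT, Finset.mem_erase]
        exact ⟨mul_ne_zero (inv_ne_zero hql) (hTne t ht), Finset.mem_univ _⟩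
      · intro t _
        exact inv_mul_cancel_left₀ hql t
      · intro t _
        exact mul_inv_cancel_left₀ hql t
      · intro t _
        rfl
    have h8 : κ0 ^ q - κ0 = q * (∑ t ∈ T, r2 t + r) := by
      rw [hκ0, hr, Finset.sum_congr rfl hr2, Finset.sum_add_distrib, h7, ← Finset.mul_sum, ← hκ0]
      ring
    rw [h8]
    exact hπq.mul_right _
  have h6 : π ∣ κ ^ q - κ := by
    have : κ ^ q - κ = (κ ^ q - κ0 ^ q) + (κ0 ^ q - κ0) - (κ - κ0) := by ring
    rw [this]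
    exact dvd_sub (dvd_add h4 h5) h3
  obtain ⟨r, hr⟩ := one_add_pow_q hq2 (π * κ)
  obtain ⟨e, he⟩ := h6
  rw [hGκ, hr]
  have hq1 : π ^ q = π ^ (q - 1) * π := by
    rw [← pow_succ]
    congr 1
    have := hq.out.pos
    omega
  have hq3 : π ^ (q + 1) = π ^ (q - 1) * π ^ 2 := by
    rw [← pow_add]
    congr 1
    have := hq.out.pos
    omega
  refine ⟨e + w * κ + (-1 + π * w) * κ ^ 2 * r, ?_⟩
  have he' : κ ^ q = κ + π * e := by linear_combination he
  rw [mul_pow π κ q, he', hw, hq1, hq3]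
  ring

end Pool.Agent.Lib.MP_d1f1b5_nt.KU
end

section
set_option autoImplicit false

/-!
The elementary half of Stickelberger's theorem: a product of Jacobi sums lies in an explicit
product of ideals.
-/

namespace Pool.Agent.Lib.MP_d1f1b5_nt.KU

open Finset Polynomial

/-- the ideal `(l, z - x^j)` -/
def IJ {O : Type*} [CommRing O] (z : O) (l : ℕ) (x : ℤ) (j : ℕ) : Ideal O :=
  Ideal.span {(l : O), z - (x : O) ^ j}

theorem ideal_prod_le {O : Type*} [CommRing O] {ι : Type*} (s : Finset ι) (I J : ι → Ideal O)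
    (h : ∀ i ∈ s, I i ≤ J i) : ∏ i ∈ s, I i ≤ ∏ i ∈ s, J i := by
  classical
  induction s using Finset.induction_on with
  | empty => simp
  | insert a s ha ih =>
    rw [Finset.prod_insert ha, Finset.prod_insert ha]
    exact Ideal.mul_mono (h a (Finset.mem_insert_self a s))
      (ih fun i hi => h i (Finset.mem_insert_of_mem hi))

section poly

variable {O : Type*} [CommRing O]

theorem poly_mem (z : O) (l : ℕ) (x : ℤ) (j : ℕ) (f : ℤ[X]) (h : (l : ℤ) ∣ f.eval (x ^ j)) :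
    aeval z f ∈ IJ z l x j := by
  obtain ⟨c, hc⟩ := h
  have h1 : (z - (x : O) ^ j) ∣ aeval z f - aeval ((x : O) ^ j) f := by
    rw [aeval_def, aeval_def, eval₂_eq_eval_map, eval₂_eq_eval_map]
    exact Polynomial.sub_dvd_eval_sub z ((x : O) ^ j) (f.map (algebraMap ℤ O))
  obtain ⟨d, hd⟩ := h1
  have h2 : aeval ((x : O) ^ j) f = ((f.eval (x ^ j) : ℤ) : O) := by
    have := Polynomial.aeval_algebraMap_apply_eq_algebraMap_eval (A := O) (x ^ j) f
    simpa using this
  have h3 : aeval z f = d * (z - (x : O) ^ j) + c * (l : O) := by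
    have : aeval z f = (z - (x : O) ^ j) * d + aeval ((x : O) ^ j) f := by linear_combination hd
    rw [this, h2, hc]
    push_cast
    ring
  rw [h3]
  apply Ideal.add_mem
  · exact Ideal.mul_mem_left _ _ (Ideal.subset_span (by simp))
  · exact Ideal.mul_mem_left _ _ (Ideal.subset_span (by simp))

end poly

/-- power sums -/
theorem sum_pow_zero {l : ℕ} [Fact l.Prime] (A B : ℕ) (h : A + B < l - 1) :
    ∑ t : ZMod l, t ^ A * (1 - t) ^ B = 0 := by
  have h1 : ∀ t : ZMod l, t ^ A * (1 - t) ^ B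
      = ∑ i ∈ range (B + 1), ((-1) ^ i * (B.choose i : ZMod l)) * t ^ (A + i) := by
    intro t
    have : (1 - t) ^ B = (-t + 1) ^ B := by ring
    rw [this, add_pow, Finset.mul_sum]
    refine Finset.sum_congr rfl fun i _ => ?_
    rw [neg_pow, one_pow, pow_add]
    ring
  simp only [h1]
  rw [Finset.sum_comm]
  apply Finset.sum_eq_zero
  intro i hi
  rw [← Finset.mul_sum]
  have hi' := Finset.mem_range.mp hi
  have := FiniteField.sum_pow_lt_card_sub_one (ZMod l) (A + i) (by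
    rw [ZMod.card]
    omega)
  rw [this, mul_zero]

section main

variable {O : Type*} [CommRing O] {q : ℕ} [hq : Fact q.Prime] {l : ℕ} [hl : Fact l.Prime]
  {z : O} {x : ℤ} {n : ℕ} (hn : l - 1 = q * n) (hn0 : 0 < n)
  (ρ : MulChar (ZMod l) O) (b : ZMod l → ℕ) (hρ : ∀ t, t ≠ 0 → ρ t = z ^ b t)
  (hxb : ∀ t, t ≠ 0 → (x : ZMod l) ^ b t * t ^ n = 1)

include hn hn0 hρ hxb in
theorem jacobi_mem (j k : ℕ) (hjq : j < q) (hk : 0 < k)
    (hr : q < j + (j * k) % q) : jacobiSum ρ (ρ ^ k) ∈ IJ z l x j := by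
  classical
  have h1 : jacobiSum ρ (ρ ^ k)
      = aeval z (∑ t ∈ (univ : Finset (ZMod l)) \ {0, 1}, (X : ℤ[X]) ^ (b t + k * b (1 - t))) := by
    rw [jacobiSum_eq_sum_sdiff, map_sum]
    refine Finset.sum_congr rfl fun t ht => ?_
    simp only [mem_sdiff, mem_univ, mem_insert, mem_singleton, not_or, true_and] at ht
    have ht1 : 1 - t ≠ 0 := sub_ne_zero.mpr (Ne.symm ht.2)
    rw [map_pow, aeval_X, hρ t ht.1, MulChar.pow_apply' _ hk.ne', hρ _ ht1, pow_add, ← pow_mul,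
      mul_comm k]
  rw [h1]
  apply poly_mem
  rw [← ZMod.intCast_zmod_eq_zero_iff_dvd]
  set r := (j * k) % q with hrdef
  have hrq : r < q := Nat.mod_lt _ hq.out.pos
  -- rewrite each term
  have hcard : ∀ t : ZMod l, t ≠ 0 → (t ^ n) ^ q = 1 := by
    intro t ht
    rw [← pow_mul, mul_comm, ← hn]
    exact ZMod.pow_card_sub_one_eq_one ht
  have e1 : ∀ t : ZMod l, t ≠ 0 → ((x : ZMod l) ^ b t) ^ j = t ^ ((q - j) * n) := by
    intro t ht
    have h2 := hxb t ht
    have h3 : ((x : ZMod l) ^ b t) ^ j * (t ^ n) ^ j = 1 := by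
      rw [← mul_pow, h2, one_pow]
    have h4 : t ^ ((q - j) * n) * (t ^ n) ^ j = 1 := by
      rw [← pow_mul, ← pow_add]
      have : (q - j) * n + n * j = q * n := by
        rw [mul_comm n j, ← add_mul, Nat.sub_add_cancel hjq.le]
      rw [this, ← hn]
      exact ZMod.pow_card_sub_one_eq_one ht
    have h5 : (t ^ n) ^ j ≠ 0 := pow_ne_zero _ (pow_ne_zero _ ht)
    exact mul_right_cancel₀ h5 (h3.trans h4.symm)
  have e2 : ∀ t : ZMod l, t ≠ 0 → ((x : ZMod l) ^ b t) ^ (j * k) = t ^ ((q - r) * n) := by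
    intro t ht
    have h2 := hxb t ht
    have h3 : ((x : ZMod l) ^ b t) ^ (j * k) * (t ^ n) ^ (j * k) = 1 := by
      rw [← mul_pow, h2, one_pow]
    have h4 : t ^ ((q - r) * n) * (t ^ n) ^ (j * k) = 1 := by
      have h6 : (t ^ n) ^ (j * k) = (t ^ n) ^ r := by
        conv_lhs => rw [← Nat.div_add_mod (j * k) q, pow_add, pow_mul, hcard t ht, one_pow, one_mul]
      rw [h6, ← pow_mul, ← pow_add]
      have : (q - r) * n + n * r = q * n := by
        rw [mul_comm n r, ← add_mul, Nat.sub_add_cancel hrq.le]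
      rw [this, ← hn]
      exact ZMod.pow_card_sub_one_eq_one ht
    have h5 : (t ^ n) ^ (j * k) ≠ 0 := pow_ne_zero _ (pow_ne_zero _ ht)
    exact mul_right_cancel₀ h5 (h3.trans h4.symm)
  rw [eval_finsetSum]
  push_cast
  have e3 : ∀ t ∈ (univ : Finset (ZMod l)) \ {0, 1},
      (((eval (x ^ j) ((X : ℤ[X]) ^ (b t + k * b (1 - t)))) : ℤ) : ZMod l)
        = t ^ ((q - j) * n) * (1 - t) ^ ((q - r) * n) := by
    intro t ht
    simp only [mem_sdiff, mem_univ, mem_insert, mem_singleton, not_or, true_and] at ht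
    have ht1 : 1 - t ≠ 0 := sub_ne_zero.mpr (Ne.symm ht.2)
    rw [eval_pow, eval_X]
    push_cast
    rw [← e1 t ht.1, ← e2 (1 - t) ht1, ← pow_mul, ← pow_mul, ← pow_mul, ← pow_add]
    congr 1
    ring
  rw [Finset.sum_congr rfl e3]
  have hA : (q - j) * n ≠ 0 := by
    apply Nat.mul_ne_zero <;> omega
  have hB : (q - r) * n ≠ 0 := by
    apply Nat.mul_ne_zero <;> omega
  have h0 : ∑ t : ZMod l, t ^ ((q - j) * n) * (1 - t) ^ ((q - r) * n) = 0 := by
    apply sum_pow_zero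
    rw [hn, ← add_mul]
    apply Nat.mul_lt_mul_of_pos_right _ hn0
    omega
  refine (Finset.sum_subset (Finset.sdiff_subset) ?_).trans h0
  intro t _ ht
  simp only [mem_sdiff, mem_univ, mem_insert, mem_singleton, true_and, not_not] at ht
  rcases ht with ht | ht
  · rw [ht, zero_pow hA, zero_mul]
  · rw [ht, sub_self, zero_pow hB, mul_zero]

omit hl in
theorem card_large (j : ℕ) (hj : 0 < j) (hjq : j < q) :
    j - 1 ≤ ((Ico 1 (q - 1)).filter (fun k => q < j + (j * k) % q)).card := by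
  classical
  have hqpos := hq.out.pos
  have hcop : Nat.Coprime j q := by
    apply Nat.Coprime.symm
    rw [hq.out.coprime_iff_not_dvd]
    intro h
    have := Nat.le_of_dvd hj h
    omega
  obtain ⟨i, _, hi⟩ := Nat.exists_mul_mod_eq_one_of_coprime hcop hq.out.one_lt
  have hmod : ∀ r, r < q → (j * ((i * r) % q)) % q = r := by
    intro r hr
    rw [Nat.mul_mod, Nat.mod_mod, ← Nat.mul_mod, ← mul_assoc, Nat.mul_mod, hi, one_mul, Nat.mod_mod,
      Nat.mod_eq_of_lt hr]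
  have hcard : (Ico (q - j + 1) q).card = j - 1 := by
    rw [Nat.card_Ico]
    omega
  rw [← hcard]
  apply Finset.card_le_card_of_injOn (fun r => (i * r) % q)
  · intro r hr
    rw [Finset.mem_coe, Finset.mem_Ico] at hr
    have h1 := hmod r hr.2
    have h2 : (i * r) % q < q := Nat.mod_lt _ hqpos
    rw [Finset.mem_coe, Finset.mem_filter, Finset.mem_Ico]
    show (1 ≤ (i * r) % q ∧ (i * r) % q < q - 1) ∧ q < j + (j * ((i * r) % q)) % q
    refine ⟨⟨?_, ?_⟩, ?_⟩
    · by_contra h0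
      have h3 : (i * r) % q = 0 := by omega
      rw [h3, mul_zero, Nat.zero_mod] at h1
      omega
    · by_contra h0
      have h3 : (i * r) % q = q - 1 := by omega
      rw [h3] at h1
      have h4 : (j * (q - 1)) % q = q - j := by
        have h5 : j * (q - 1) = (q - j) + q * (j - 1) := by
          obtain ⟨a, rfl⟩ : ∃ a, j = a + 1 := ⟨j - 1, by omega⟩
          obtain ⟨c, hc⟩ : ∃ c, q = a + 1 + c := ⟨q - (a + 1), by omega⟩
          rw [hc]
          have e1 : a + 1 + c - 1 = a + c := by omega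
          have e2 : a + 1 + c - (a + 1) = c := by omega
          have e3 : a + 1 - 1 = a := by omega
          rw [e1, e2, e3]
          ring
        rw [h5, Nat.add_mul_mod_self_left]
        exact Nat.mod_eq_of_lt (by omega)
      rw [h4] at h1
      omega
    · rw [h1]
      omega
  · intro r hr s hs hrs
    rw [Finset.mem_coe, Finset.mem_Ico] at hr hs
    have h1 := hmod r hr.2
    have h2 := hmod s hs.2
    simp only at hrs
    rw [← h1, ← h2, hrs]

/-- the product of Jacobi sums -/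
noncomputable def gJ (q : ℕ) {l : ℕ} [Fact l.Prime] {O : Type*} [CommRing O]
    (ρ : MulChar (ZMod l) O) : O :=
  (l : O) * ∏ k ∈ Ico 1 (q - 1), jacobiSum ρ (ρ ^ k)

include hn hn0 hρ hxb in
theorem gJ_mem (j : ℕ) (hj : 0 < j) (hjq : j < q) : gJ q ρ ∈ IJ z l x j ^ j := by
  classical
  set S := (Ico 1 (q - 1)).filter (fun k => q < j + (j * k) % q) with hS
  have h1 : ∏ k ∈ Ico 1 (q - 1), jacobiSum ρ (ρ ^ k) ∈ IJ z l x j ^ (j - 1) := by
    rw [← Finset.prod_filter_mul_prod_filter_not (Ico 1 (q - 1)) (fun k => q < j + (j * k) % q)]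
    apply Ideal.mul_mem_right
    have h2 : ∏ k ∈ S, jacobiSum ρ (ρ ^ k) ∈ ∏ k ∈ S, IJ z l x j := by
      apply Ideal.prod_mem_prod
      intro k hk
      rw [hS, Finset.mem_filter, Finset.mem_Ico] at hk
      exact jacobi_mem hn hn0 ρ b hρ hxb j k hjq (by omega) hk.2
    rw [Finset.prod_const] at h2
    exact Ideal.pow_le_pow_right (card_large j hj hjq) h2
  unfold gJ
  have h3 : IJ z l x j ^ j = IJ z l x j * IJ z l x j ^ (j - 1) := by
    rw [← pow_succ']
    congr 1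
    omega
  rw [h3]
  exact Ideal.mul_mem_mul (Ideal.subset_span (by simp)) h1

omit hq in
theorem IJ_coprime {i j : ℕ} (h : (x : ZMod l) ^ i ≠ (x : ZMod l) ^ j) :
    IsCoprime (IJ z l x i) (IJ z l x j) := by
  have h1 : IsCoprime ((x ^ i - x ^ j : ℤ)) (l : ℤ) := by
    apply IsCoprime.symm
    rw [(Nat.prime_iff_prime_int.mp hl.out).coprime_iff_not_dvd, ← ZMod.intCast_zmod_eq_zero_iff_dvd]
    push_cast
    exact sub_ne_zero.mpr h
  obtain ⟨u, v, huv⟩ := h1
  rw [Ideal.isCoprime_iff_exists]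
  refine ⟨-(u : O) * (z - (x : O) ^ i) + v * (l : O), ?_, (u : O) * (z - (x : O) ^ j), ?_, ?_⟩
  · apply Ideal.add_mem
    · exact Ideal.mul_mem_left _ _ (Ideal.subset_span (by simp))
    · exact Ideal.mul_mem_left _ _ (Ideal.subset_span (by simp))
  · exact Ideal.mul_mem_left _ _ (Ideal.subset_span (by simp))
  · have h2 := congrArg (fun m : ℤ => (m : O)) huv
    push_cast at h2
    linear_combination h2

omit hl in
theorem IJ_le (hzq : z ^ q = 1) (i : ZMod q) (hi : i ≠ 0) :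
    IJ z l x (i⁻¹).val ≤ Ideal.span {(l : O), (x : O) - z ^ i.val} := by
  unfold IJ
  rw [Ideal.span_le]
  intro y hy
  simp only [Set.mem_insert_iff, Set.mem_singleton_iff] at hy
  rcases hy with rfl | rfl
  · exact Ideal.subset_span (by simp)
  · have h1 : z = (z ^ i.val) ^ (i⁻¹).val := by
      rw [← pow_mul]
      have h2 : (i.val * (i⁻¹).val) % q = 1 := by
        have h3 : ((i.val * (i⁻¹).val : ℕ) : ZMod q) = ((1 : ℕ) : ZMod q) := by
          push_cast
          rw [ZMod.natCast_zmod_val, ZMod.natCast_zmod_val, mul_inv_cancel₀ hi]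
        have h4 := (ZMod.natCast_eq_natCast_iff _ _ _).mp h3
        rw [Nat.ModEq, Nat.mod_eq_of_lt hq.out.one_lt] at h4
        exact h4
      rw [← Nat.div_add_mod (i.val * (i⁻¹).val) q, h2, pow_add, pow_mul, hzq, one_pow, one_mul, pow_one]
    have h5 : ((x : O) - z ^ i.val) ∣ (x : O) ^ (i⁻¹).val - (z ^ i.val) ^ (i⁻¹).val :=
      sub_dvd_pow_sub_pow _ _ _
    obtain ⟨c, hc⟩ := h5
    have h6 : z - (x : O) ^ (i⁻¹).val = -c * ((x : O) - z ^ i.val) := by
      conv_lhs => rw [h1]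
      linear_combination -hc
    show z - (x : O) ^ (i⁻¹).val ∈ _
    rw [h6]
    exact Ideal.mul_mem_left _ _ (Ideal.subset_span (by simp))

include hn hn0 hρ hxb in
theorem gJ_mem_prod (hzq : z ^ q = 1) (hx : IsPrimitiveRoot (x : ZMod l) q) :
    gJ q ρ ∈ ∏ i ∈ (univ : Finset (ZMod q)).erase 0,
      (Ideal.span {(l : O), (x : O) - z ^ i.val}) ^ (i⁻¹).val := by
  classical
  have h1 : gJ q ρ ∈ ∏ i ∈ (univ : Finset (ZMod q)).erase 0, (IJ z l x (i⁻¹).val) ^ (i⁻¹).val := by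
    rw [Ideal.prod_eq_iInf_of_pairwise_isCoprime]
    · simp only [Ideal.mem_iInf]
      intro i hi
      have hi0 : i ≠ 0 := Finset.ne_of_mem_erase hi
      have hv : 0 < (i⁻¹).val := by
        rw [Nat.pos_iff_ne_zero, Ne, ZMod.val_eq_zero]
        exact inv_ne_zero hi0
      exact gJ_mem hn hn0 ρ b hρ hxb _ hv (ZMod.val_lt _)
    · intro i hi j hj hij
      apply IsCoprime.pow
      apply IJ_coprime
      intro h
      apply hij
      have h2 := hx.pow_inj (ZMod.val_lt i⁻¹) (ZMod.val_lt j⁻¹) h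
      exact inv_injective (ZMod.val_injective q h2)
  refine ideal_prod_le _ _ _ ?_ h1
  intro i hi
  exact Ideal.pow_right_mono (IJ_le hzq i (Finset.ne_of_mem_erase hi)) _

end main

end Pool.Agent.Lib.MP_d1f1b5_nt.KU
end

section
set_option autoImplicit false

/-!
The `q`-th power residue character modulo `l` with values in a domain containing a primitive
`q`-th root of unity `z`, compatible with `z ↦ x`.
-/

namespace Pool.Agent.Lib.MP_d1f1b5_nt.KU

open Finset Polynomial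

/-- the data of the inverse `q`-th power residue character -/
structure ResChar (q l : ℕ) [Fact l.Prime] {O : Type*} [CommRing O] (z : O) (x : ℤ)
    (ρ : MulChar (ZMod l) O) (b : ZMod l → ℕ) (n : ℕ) : Prop where
  npos : 0 < n
  hn : l - 1 = q * n
  hρ : ∀ t, t ≠ 0 → ρ t = z ^ b t
  hxb : ∀ t, t ≠ 0 → (x : ZMod l) ^ b t * t ^ n = 1
  ord : orderOf ρ = q

theorem char_exists {O : Type*} [CommRing O] [IsDomain O] {q : ℕ} [hq : Fact q.Prime] {l : ℕ}
    [hl : Fact l.Prime] {z : O} (hz : IsPrimitiveRoot z q) {x : ℤ}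
    (hx : IsPrimitiveRoot (x : ZMod l) q) :
    ∃ (ρ : MulChar (ZMod l) O) (b : ZMod l → ℕ) (n : ℕ), ResChar q l z x ρ b n := by
  classical
  have hl1 := hl.out.one_lt
  have hx0 : (x : ZMod l) ≠ 0 := by
    intro h0
    have := hx.pow_eq_one
    rw [h0, zero_pow hq.out.ne_zero] at this
    exact zero_ne_one this
  have hdvd : q ∣ l - 1 := hx.dvd_of_pow_eq_one _ (ZMod.pow_card_sub_one_eq_one hx0)
  obtain ⟨n, hn⟩ := hdvd
  have hn0 : 0 < n := by
    rcases Nat.eq_zero_or_pos n with h | h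
    · rw [h, mul_zero] at hn
      omega
    · exact h
  obtain ⟨g, hg⟩ := IsCyclic.exists_generator (α := (ZMod l)ˣ)
  have hcardu : Fintype.card (ZMod l)ˣ = l - 1 := ZMod.card_units l
  have hgo : orderOf g = l - 1 := by
    rw [orderOf_eq_card_of_forall_mem_zpowers hg, Nat.card_eq_fintype_card, hcardu]
  -- the exponent e
  have hyq : (((g⁻¹ ^ n : (ZMod l)ˣ)) : ZMod l) ^ q = 1 := by
    rw [← Units.val_pow_eq_pow_val, ← pow_mul, mul_comm, ← hn, inv_pow, ← hgo, pow_orderOf_eq_one]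
    simp
  obtain ⟨e, _, he⟩ := hx.eq_pow_of_pow_eq_one hyq
  -- the unit zeta^e
  have hμ : (hz.isUnit hq.out.ne_zero).unit ^ e ∈ rootsOfUnity (Fintype.card (ZMod l)ˣ) O := by
    rw [mem_rootsOfUnity, hcardu, hn, ← pow_mul]
    have h1 : (hz.isUnit hq.out.ne_zero).unit ^ q = 1 := by
      ext
      simp [hz.pow_eq_one]
    have : e * (q * n) = q * (e * n) := by ring
    rw [this, pow_mul, h1, one_pow]
  set ρ : MulChar (ZMod l) O := MulChar.ofRootOfUnity hμ hg with hρdef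
  have hρg : ρ (g : ZMod l) = z ^ e := by
    rw [hρdef, MulChar.ofRootOfUnity_spec]
    simp
  -- discrete logarithm
  have hlog : ∀ t : ZMod l, t ≠ 0 → ∃ a : ℕ, t = (g : ZMod l) ^ a := by
    intro t ht
    have h1 : Units.mk0 t ht ∈ Submonoid.powers g := by
      rw [mem_powers_iff_mem_zpowers]
      exact hg _
    obtain ⟨a, ha⟩ := h1
    refine ⟨a, ?_⟩
    have := congrArg (fun u : (ZMod l)ˣ => (u : ZMod l)) ha
    simp only [Units.val_mk0] at this
    rw [← this]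
    simp
  choose! a ha using hlog
  have hρt : ∀ t, t ≠ 0 → ρ t = z ^ (e * a t) := by
    intro t ht
    conv_lhs => rw [ha t ht]
    rw [map_pow, hρg, pow_mul]
  have hxt : ∀ t : ZMod l, t ≠ 0 → (x : ZMod l) ^ (e * a t) * t ^ n = 1 := by
    intro t ht
    have h1 : t ^ n = (g : ZMod l) ^ (n * a t) := by
      conv_lhs => rw [ha t ht]
      rw [← pow_mul, mul_comm]
    rw [h1, pow_mul, he, pow_mul, ← mul_pow, ← Units.val_pow_eq_pow_val, ← Units.val_mul,
      inv_pow, inv_mul_cancel]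
    simp
  refine ⟨ρ, fun t => e * a t, n, hn0, hn, hρt, hxt, ?_⟩
  apply orderOf_eq_prime
  · ext t
    rw [MulChar.pow_apply_coe, hρt _ t.ne_zero, ← pow_mul, mul_comm, pow_mul, hz.pow_eq_one, one_pow,
      MulChar.one_apply_coe]
  · intro h1
    have h2 : ∀ t : ZMod l, t ≠ 0 → t ^ n = 1 := by
      intro t ht
      have h3 := hρt t ht
      rw [h1, MulChar.one_apply (isUnit_iff_ne_zero.mpr ht)] at h3
      have h4 : q ∣ e * a t := hz.dvd_of_pow_eq_one _ h3.symm
      have h5 := hxt t ht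
      obtain ⟨c, hc⟩ := h4
      rw [hc, pow_mul, hx.pow_eq_one, one_pow, one_mul] at h5
      exact h5
    have h3 := h2 g g.ne_zero
    have h4 : g ^ n = 1 := by
      ext
      push_cast
      exact h3
    have h5 : orderOf g ∣ n := orderOf_dvd_of_pow_eq_one h4
    rw [hgo, hn] at h5
    have h6 := Nat.le_of_dvd hn0 h5
    have h7 := hq.out.two_le
    nlinarith

end Pool.Agent.Lib.MP_d1f1b5_nt.KU
end

section
set_option autoImplicit false

/-!
The three properties of `gJ` (ideal membership is in `Stick`): Gauss sum power, absolute value,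
congruence.
-/

namespace Pool.Agent.Lib.MP_d1f1b5_nt.KU

open Finset Polynomial

section generic

variable {O : Type*} [CommRing O] [IsDomain O] {q : ℕ} [hq : Fact q.Prime] {l : ℕ}
  [hl : Fact l.Prime] {z : O} {x : ℤ} {ρ : MulChar (ZMod l) O} {b : ZMod l → ℕ} {n : ℕ}

omit [IsDomain O] in
theorem comp_order {R : Type*} [CommRing R] (f : O →+* R)
    (hf : Function.Injective f) (h : ResChar q l z x ρ b n) :
    orderOf (ρ.ringHomComp f) = q := by
  apply orderOf_eq_prime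
  · have hρq : ρ ^ q = 1 := by
      have := pow_orderOf_eq_one ρ
      rwa [h.ord] at this
    rw [MulChar.ringHomComp_pow, hρq]
    ext t
    simp
  · rw [Ne, ← Ne, MulChar.ringHomComp_ne_one_iff hf]
    intro h1
    have h2 := h.ord
    rw [h1, orderOf_one] at h2
    exact hq.out.one_lt.ne h2

omit [IsDomain O] in
theorem gauss_pow {R : Type*} [CommRing R] [IsDomain R] (hq2 : q ≠ 2) (f : O →+* R)
    (hf : Function.Injective f) (h : ResChar q l z x ρ b n) {ψ : AddChar (ZMod l) R}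
    (hψ : ψ.IsPrimitive) : gaussSum (ρ.ringHomComp f) ψ ^ q = f (gJ q ρ) := by
  have hodd : Odd q := hq.out.odd_of_ne_two hq2
  have ho := comp_order f hf h
  have h1 := gaussSum_pow_eq_prod_jacobiSum (χ := ρ.ringHomComp f) (ψ := ψ)
    (by rw [ho]; exact hq.out.two_le) hψ
  rw [ho] at h1
  have h2 : (ρ.ringHomComp f) (-1) = 1 := by
    have h3 : (ρ.ringHomComp f) (-1) ^ q = (ρ.ringHomComp f) (-1) := by
      rw [← map_pow, hodd.neg_one_pow]
    have h4 : (ρ.ringHomComp f) (-1) ^ q = 1 := by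
      rw [← MulChar.pow_apply' _ hq.out.ne_zero, ← ho, pow_orderOf_eq_one]
      exact MulChar.one_apply (IsUnit.neg isUnit_one)
    rw [← h3, h4]
  rw [h1, h2, one_mul, gJ, map_mul, map_natCast, map_prod, ZMod.card]
  congr 1
  refine Finset.prod_congr rfl fun k _ => ?_
  rw [MulChar.ringHomComp_pow, jacobiSum_ringHomComp]

omit [IsDomain O] in
theorem norm_gJ (hq2 : q ≠ 2) (f : O →+* ℂ) (hf : Function.Injective f)
    (h : ResChar q l z x ρ b n) : ‖f (gJ q ρ)‖ ^ 2 = (l : ℝ) ^ q := by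
  have hψ := ZMod.isPrimitive_stdAddChar l
  have h1 := gauss_pow hq2 f hf h hψ
  have hne : ρ.ringHomComp f ≠ 1 := by
    intro h2
    have h3 := comp_order f hf h
    rw [h2, orderOf_one] at h3
    exact hq.out.one_lt.ne h3
  have h2 := gaussSum_mul_gaussSum_eq_card hne hψ
  rw [← star_gaussSum_eq] at h2
  have h3 : ‖gaussSum (ρ.ringHomComp f) (ZMod.stdAddChar (N := l))‖ ^ 2 = (l : ℝ) := by
    have h4 : ((‖gaussSum (ρ.ringHomComp f) (ZMod.stdAddChar (N := l))‖ ^ 2 : ℝ) : ℂ) = (l : ℂ) := by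
      have h5 := Complex.mul_conj' (gaussSum (ρ.ringHomComp f) (ZMod.stdAddChar (N := l)))
      push_cast
      rw [← h5]
      rw [ZMod.card] at h2
      exact h2
    exact_mod_cast h4
  rw [← h1, norm_pow, ← pow_mul, mul_comm q 2, pow_mul, h3]

omit [IsDomain O] in
theorem cong_gJ {R : Type*} [CommRing R] [IsDomain R] (hq2 : q ≠ 2) (f : O →+* R)
    (hf : Function.Injective f) (hz : ∑ i ∈ range q, z ^ i = 0)
    (hx : IsPrimitiveRoot (x : ZMod l) q) (h : ResChar q l z x ρ b n)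
    {ψ : AddChar (ZMod l) R} (hψ : ψ.IsPrimitive) {p : ℕ} (hpq : Nat.Coprime p q)
    (hqp : (q : ZMod l) ^ p = 1) (hp0 : p ≠ 0) :
    (1 - f z) ^ (q + 1) ∣ f (-gJ q ρ) - 1 := by
  have hodd : Odd q := hq.out.odd_of_ne_two hq2
  have hψ1 : ψ ≠ 1 := by
    have := hψ one_ne_zero
    rwa [AddChar.mulShift_one] at this
  have h0 : ∑ r, ψ r = 0 := AddChar.sum_eq_zero_of_ne_one hψ1
  have hfz : ∑ i ∈ range q, (f z) ^ i = 0 := by
    rw [← map_zero f, ← hz, map_sum]
    refine Finset.sum_congr rfl fun i _ => by rw [map_pow]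
  have hq0 : (q : ZMod l) ≠ 0 := by
    intro h1
    rw [h1, zero_pow hp0] at hqp
    exact zero_ne_one hqp
  -- q^n = 1
  have hqn : (q : ZMod l) ^ n = 1 := by
    have h1 : ((q : ZMod l) ^ n) ^ q = 1 := by
      rw [← pow_mul, mul_comm, ← h.hn]
      exact ZMod.pow_card_sub_one_eq_one hq0
    have h2 : ((q : ZMod l) ^ n) ^ p = 1 := by
      rw [← pow_mul, mul_comm, pow_mul, hqp, one_pow]
    have h3 : orderOf ((q : ZMod l) ^ n) ∣ Nat.gcd p q :=
      Nat.dvd_gcd (orderOf_dvd_of_pow_eq_one h2) (orderOf_dvd_of_pow_eq_one h1)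
    rw [hpq] at h3
    exact orderOf_eq_one_iff.mp (Nat.dvd_one.mp h3)
  have hb : ∀ t, t ≠ 0 → b ((q : ZMod l) * t) ≡ b t [MOD q] := by
    intro t ht
    have h1 := h.hxb _ (mul_ne_zero hq0 ht)
    have h2 := h.hxb t ht
    rw [mul_pow, hqn, one_mul] at h1
    have h3 : (x : ZMod l) ^ b ((q : ZMod l) * t) = (x : ZMod l) ^ b t :=
      mul_right_cancel₀ (pow_ne_zero n ht) (h1.trans h2.symm)
    have h4 : ∀ m : ℕ, (x : ZMod l) ^ m = (x : ZMod l) ^ (m % q) := by
      intro m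
      conv_lhs => rw [← Nat.div_add_mod m q, pow_add, pow_mul, hx.pow_eq_one, one_pow, one_mul]
    rw [h4, h4 (b t)] at h3
    exact hx.pow_inj (Nat.mod_lt _ hq.out.pos) (Nat.mod_lt _ hq.out.pos) h3
  have h1 := gauss_congr hq2 hfz ψ h0 (ρ.ringHomComp f) b
    (fun t ht => by rw [MulChar.ringHomComp_apply, h.hρ t ht, map_pow]) hq0 hb
  rw [hodd.neg_pow, gauss_pow hq2 f hf h hψ] at h1
  rw [map_neg]
  exact h1

end generic

end Pool.Agent.Lib.MP_d1f1b5_nt.KU
end

section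
set_option autoImplicit false

/-!
The global argument: the product of the Gauss sum powers is `± zeta^r` times the Stickelberger
product of `x - zeta`.
-/

namespace Pool.Agent.Lib.MP_d1f1b5_nt.KU

open Finset Polynomial NumberField

/-- the ring of all algebraic integers in `ℂ` -/
abbrev AI : Subalgebra ℤ ℂ := integralClosure ℤ ℂ

theorem exists_psi (l : ℕ) [NeZero l] : ∃ ψ : AddChar (ZMod l) AI, ψ.IsPrimitive := by
  have h1 : IsPrimitiveRoot (Complex.exp (2 * Real.pi * Complex.I / l)) l :=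
    Complex.isPrimitiveRoot_exp l (NeZero.ne l)
  set w : AI := ⟨Complex.exp (2 * Real.pi * Complex.I / l), h1.isIntegral (NeZero.pos l)⟩ with hw
  have h2 : IsPrimitiveRoot w l := by
    apply IsPrimitiveRoot.of_map_of_injective (f := AI.val)
    · exact h1
    · exact Subtype.val_injective
  exact ⟨_, AddChar.zmodChar_primitive_of_primitive_root l h2⟩

variable {q : ℕ} [hq : Fact q.Prime] {K : Type*} [Field K] [NumberField K]

/-- the properties carried by the product of the Gauss sum powers -/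
structure Good (q : ℕ) [Fact q.Prime] (z : 𝓞 K) (x : ℤ) (Φ : 𝓞 K →+* AI) (m : ℕ) (G : 𝓞 K) :
    Prop where
  mem : G ∈ ∏ i ∈ (univ : Finset (ZMod q)).erase 0,
    (Ideal.span {(m : 𝓞 K), (x : 𝓞 K) - z ^ i.val}) ^ (i⁻¹).val
  nrm : ∀ φ : K →+* ℂ, ‖φ (G : K)‖ ^ 2 = (m : ℝ) ^ q
  cong : (1 - Φ z) ^ (q + 1) ∣ Φ G - 1

theorem good_one (z : 𝓞 K) (x : ℤ) (Φ : 𝓞 K →+* AI) : Good q z x Φ 1 1 := by
  refine ⟨?_, ?_, ?_⟩
  · have h1 : ∀ i ∈ (univ : Finset (ZMod q)).erase 0,
        (Ideal.span {((1 : ℕ) : 𝓞 K), (x : 𝓞 K) - z ^ i.val}) ^ (i⁻¹).val = 1 := by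
      intro i _
      have : Ideal.span {((1 : ℕ) : 𝓞 K), (x : 𝓞 K) - z ^ i.val} = ⊤ := by
        rw [Ideal.eq_top_iff_one]
        apply Ideal.subset_span
        simp
      rw [this, ← Ideal.one_eq_top, one_pow]
    rw [Finset.prod_congr rfl h1, Finset.prod_const_one, Ideal.one_eq_top]
    trivial
  · intro φ
    simp
  · simp

theorem span_mul_le {O : Type*} [CommRing O] (a b c : O) :
    Ideal.span {a, c} * Ideal.span {b, c} ≤ Ideal.span {a * b, c} := by
  rw [Ideal.span_pair_mul_span_pair, Ideal.span_le]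
  intro y hy
  simp only [Set.mem_insert_iff, Set.mem_singleton_iff] at hy
  have h1 : c ∈ Ideal.span {a * b, c} := Ideal.subset_span (by simp)
  rcases hy with rfl | rfl | rfl | rfl
  · exact Ideal.subset_span (by simp)
  · exact Ideal.mul_mem_left _ _ h1
  · exact Ideal.mul_mem_right _ _ h1
  · exact Ideal.mul_mem_left _ _ h1

theorem good_mul {z : 𝓞 K} {x : ℤ} {Φ : 𝓞 K →+* AI} {m m' : ℕ} {G G' : 𝓞 K}
    (h : Good q z x Φ m G) (h' : Good q z x Φ m' G') : Good q z x Φ (m * m') (G * G') := by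
  refine ⟨?_, ?_, ?_⟩
  · have h1 := Ideal.mul_mem_mul h.mem h'.mem
    rw [← Finset.prod_mul_distrib] at h1
    refine ideal_prod_le _ _ _ ?_ h1
    intro i _
    rw [← mul_pow]
    apply Ideal.pow_right_mono
    push_cast
    exact span_mul_le _ _ _
  · intro φ
    have h1 := h.nrm φ
    have h2 := h'.nrm φ
    push_cast
    rw [map_mul, norm_mul, mul_pow, h1, h2, mul_pow]
  · obtain ⟨a, ha⟩ := h.cong
    obtain ⟨b, hb⟩ := h'.cong
    rw [map_mul]
    refine ⟨a * Φ G' + b, ?_⟩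
    linear_combination (Φ G') * ha + hb

theorem geom_zero {z : 𝓞 K} (hz : IsPrimitiveRoot z q) : ∑ i ∈ range q, z ^ i = 0 :=
  hz.geom_sum_eq_zero hq.out.one_lt

theorem good_prime (hq2 : q ≠ 2) {z : 𝓞 K} (hz : IsPrimitiveRoot z q) {x : ℤ} {Φ : 𝓞 K →+* AI}
    (hΦ : Function.Injective Φ) {l : ℕ} (hl : l.Prime) (hx : IsPrimitiveRoot (x : ZMod l) q)
    {p : ℕ} (hpq : Nat.Coprime p q) (hqp : (q : ZMod l) ^ p = 1) (hp0 : p ≠ 0) :
    ∃ G : 𝓞 K, Good q z x Φ l G := by
  have : Fact l.Prime := ⟨hl⟩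
  obtain ⟨ρ, b, n, h⟩ := char_exists hz hx
  refine ⟨-gJ q ρ, ?_, ?_, ?_⟩
  · exact neg_mem (gJ_mem_prod h.hn h.npos ρ b h.hρ h.hxb hz.pow_eq_one hx)
  · intro φ
    have hinj : Function.Injective (φ.comp (algebraMap (𝓞 K) K)) := by
      rw [RingHom.coe_comp]
      exact φ.injective.comp RingOfIntegers.coe_injective
    have := norm_gJ hq2 (φ.comp (algebraMap (𝓞 K) K)) hinj h
    push_cast
    rw [map_neg, norm_neg]
    exact this
  · obtain ⟨ψ, hψ⟩ := exists_psi l
    exact cong_gJ hq2 Φ hΦ (geom_zero hz) hx h hψ hpq hqp hp0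

theorem good_list (hq2 : q ≠ 2) {z : 𝓞 K} (hz : IsPrimitiveRoot z q) {x : ℤ} {Φ : 𝓞 K →+* AI}
    (hΦ : Function.Injective Φ) {p : ℕ} (hpq : Nat.Coprime p q) (hp0 : p ≠ 0) (s : List ℕ)
    (hs : ∀ l ∈ s, l.Prime ∧ IsPrimitiveRoot (x : ZMod l) q ∧ (q : ZMod l) ^ p = 1) :
    ∃ G : 𝓞 K, Good q z x Φ s.prod G := by
  induction s with
  | nil => exact ⟨1, by simpa using good_one z x Φ⟩
  | cons l s ih =>
    obtain ⟨G, hG⟩ := ih fun l' hl' => hs l' (List.mem_cons_of_mem _ hl')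
    obtain ⟨h1, h2, h3⟩ := hs l List.mem_cons_self
    obtain ⟨G', hG'⟩ := good_prime hq2 hz hΦ h1 h2 hpq h3 hp0
    exact ⟨G' * G, by rw [List.prod_cons]; exact good_mul hG' hG⟩

/-- the Stickelberger product of `x - z` -/
noncomputable def WW (q : ℕ) [Fact q.Prime] {O : Type*} [CommRing O] (z : O) (x : ℤ) : O :=
  ∏ i ∈ (univ : Finset (ZMod q)).erase 0, ((x : O) - z ^ i.val) ^ (i⁻¹).val

theorem WW_dvd {z : 𝓞 K} (hz : IsPrimitiveRoot z q) {x : ℤ} {Φ : 𝓞 K →+* AI} {G : 𝓞 K} {N : ℕ}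
    (hN : (N : ℤ) = ∑ i ∈ range q, x ^ i) (h : Good q z x Φ N G) : WW q z x ∣ G := by
  have h1 : ∀ i ∈ (univ : Finset (ZMod q)).erase 0,
      (Ideal.span {(N : 𝓞 K), (x : 𝓞 K) - z ^ i.val}) ^ (i⁻¹).val
        ≤ (Ideal.span {((x : 𝓞 K) - z ^ i.val) ^ (i⁻¹).val}) := by
    intro i hi
    have hi0 : i ≠ 0 := Finset.ne_of_mem_erase hi
    rw [← Ideal.span_singleton_pow]
    apply Ideal.pow_right_mono
    rw [Ideal.span_le]
    intro y hy
    simp only [Set.mem_insert_iff, Set.mem_singleton_iff] at hy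
    rcases hy with rfl | rfl
    · show (N : 𝓞 K) ∈ Ideal.span {(x : 𝓞 K) - z ^ i.val}
      rw [Ideal.mem_span_singleton]
      have h2 : (N : 𝓞 K) = ∑ m ∈ range q, (x : 𝓞 K) ^ m := by
        have := congrArg (fun m : ℤ => (m : 𝓞 K)) hN
        push_cast at this
        exact this
      have hcop : Nat.Coprime i.val q := by
        apply Nat.Coprime.symm
        rw [hq.out.coprime_iff_not_dvd]
        intro hd
        have hv : i.val ≠ 0 := by
          rw [Ne, ZMod.val_eq_zero]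
          exact hi0
        have := Nat.le_of_dvd (Nat.pos_of_ne_zero hv) hd
        have := ZMod.val_lt i
        omega
      have h3 : ∑ m ∈ range q, (z ^ i.val) ^ m = 0 := geom_zero (hz.pow_of_coprime _ hcop)
      rw [h2, ← sub_zero (∑ m ∈ range q, (x : 𝓞 K) ^ m), ← h3, ← Finset.sum_sub_distrib]
      apply Finset.dvd_sum
      intro m _
      exact sub_dvd_pow_sub_pow _ _ m
    · exact Ideal.subset_span (by simp)
  have h2 := ideal_prod_le _ _ _ h1 h.mem
  rw [Ideal.prod_span_singleton, Ideal.mem_span_singleton] at h2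
  exact h2

end Pool.Agent.Lib.MP_d1f1b5_nt.KU
end

section
set_option autoImplicit false

/-!
The final assembly.
-/

namespace Pool.Agent.Lib.MP_d1f1b5_nt.KU

open Finset Polynomial NumberField

section cplx

variable {q : ℕ} [hq : Fact q.Prime]

/-- the product of `x - w^i` over `i ≠ 0` -/
theorem prod_sub {F : Type*} [Field F] {w : F} (hw : IsPrimitiveRoot w q) (x : F) :
    ∏ i ∈ (univ : Finset (ZMod q)).erase 0, (x - w ^ i.val) = ∑ i ∈ range q, x ^ i := by
  have h1 := QR.prod_all hw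
  have h2 := congrArg (eval x) h1
  rw [cyclotomic_prime] at h2
  simp only [eval_mul, eval_prod, eval_sub, eval_X, eval_C, eval_finsetSum, eval_pow] at h2
  have h3 : (univ : Finset (ZMod q)).erase 0 = QR.Sq q ∪ QR.NSq q := by
    ext r
    rw [Finset.mem_erase, QR.univ_split]
    simp only [mem_union, mem_singleton]
    constructor
    · rintro ⟨h4, h5 | h5⟩
      · exact absurd h5 h4
      · exact h5
    · intro h4
      refine ⟨?_, Or.inr h4⟩
      rintro rfl
      have := QR.disj0 (q := q)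
      rw [Finset.disjoint_singleton_left] at this
      exact this (Finset.mem_union.mpr h4)
  rw [h3, Finset.prod_union QR.disj1]
  exact h2

theorem norm_W (hq2 : q ≠ 2) {w : ℂ} (hw : IsPrimitiveRoot w q) (x : ℤ) {N : ℕ}
    (hN : (N : ℤ) = ∑ i ∈ range q, x ^ i) : ‖WW q w x‖ ^ 2 = (N : ℝ) ^ q := by
  have hodd : Odd q := hq.out.odd_of_ne_two hq2
  set T : Finset (ZMod q) := univ.erase 0 with hT
  have hTne : ∀ i ∈ T, i ≠ 0 := fun i hi => Finset.ne_of_mem_erase hi
  have hTneg : ∀ i ∈ T, -i ∈ T := by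
    intro i hi
    rw [hT, Finset.mem_erase]
    exact ⟨neg_ne_zero.mpr (hTne i hi), Finset.mem_univ _⟩
  set a : ZMod q → ℝ := fun i => ‖(x : ℂ) - w ^ i.val‖ with ha
  have hW : ‖WW q w x‖ = ∏ i ∈ T, a i ^ (i⁻¹).val := by
    unfold WW
    rw [norm_prod]
    refine Finset.prod_congr rfl fun i _ => by rw [norm_pow]
  have hneg : ∀ i ∈ T, a (-i) = a i := by
    intro i hi
    have h1 : w ^ (-i).val = (starRingEnd ℂ) (w ^ i.val) := by
      have h2 : w ^ (-i).val * w ^ i.val = 1 := by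
        rw [← pow_add]
        have h3 : (-i).val + i.val = q := by
          have : NeZero i := ⟨hTne i hi⟩
          rw [ZMod.val_neg_of_ne_zero]
          have := ZMod.val_lt i
          omega
        rw [h3, hw.pow_eq_one]
      have h4 : ‖w ^ i.val‖ = 1 := by
        rw [norm_pow, hw.norm'_eq_one hq.out.ne_zero, one_pow]
      have h5 : (starRingEnd ℂ) (w ^ i.val) * w ^ i.val = 1 := by
        rw [mul_comm, Complex.mul_conj', h4]
        simp
      have h6 : w ^ i.val ≠ 0 := by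
        intro h0
        rw [h0, norm_zero] at h4
        exact zero_ne_one h4
      exact mul_right_cancel₀ h6 (h2.trans h5.symm)
    rw [ha]
    simp only
    rw [h1]
    have h7 : (x : ℂ) - (starRingEnd ℂ) (w ^ i.val) = (starRingEnd ℂ) ((x : ℂ) - w ^ i.val) := by
      rw [map_sub]
      simp
    rw [h7, RCLike.norm_conj]
  have hinv : ∀ i ∈ T, ((-i)⁻¹).val = q - (i⁻¹).val := by
    intro i hi
    have : NeZero (i⁻¹) := ⟨inv_ne_zero (hTne i hi)⟩
    rw [inv_neg, ZMod.val_neg_of_ne_zero]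
  have h1 : ∏ i ∈ T, a i ^ (i⁻¹).val = ∏ i ∈ T, a i ^ (q - (i⁻¹).val) := by
    refine Finset.prod_nbij' (fun i => -i) (fun i => -i) (fun i hi => hTneg i hi)
      (fun i hi => hTneg i hi) (fun i _ => neg_neg i) (fun i _ => neg_neg i) ?_
    intro i hi
    show a i ^ (i⁻¹).val = a (-i) ^ (q - ((-i)⁻¹).val)
    rw [hneg i hi, hinv i hi]
    congr 1
    have := ZMod.val_lt (i⁻¹)
    omega
  have h2 : ∏ i ∈ T, a i = (N : ℝ) := by
    have h3 := prod_sub hw (x : ℂ)
    have h4 := congrArg norm h3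
    rw [norm_prod] at h4
    have h5 : ∑ i ∈ range q, (x : ℂ) ^ i = (N : ℂ) := by
      have := congrArg (fun m : ℤ => (m : ℂ)) hN
      push_cast at this
      exact this.symm
    rw [h5] at h4
    simp only [Complex.norm_natCast] at h4
    exact h4
  rw [hW, sq]
  nth_rewrite 2 [h1]
  rw [← Finset.prod_mul_distrib]
  have h6 : ∀ i ∈ T, a i ^ (i⁻¹).val * a i ^ (q - (i⁻¹).val) = a i ^ q := by
    intro i _
    rw [← pow_add]
    congr 1
    have := ZMod.val_lt (i⁻¹)
    omega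
  rw [Finset.prod_congr rfl h6, Finset.prod_pow, h2]

end cplx

section fin

variable {q : ℕ} [hq : Fact q.Prime]

theorem WW_map {O R : Type*} [CommRing O] [CommRing R] (f : O →+* R) (z : O) (x : ℤ) :
    f (WW q z x) = WW q (f z) x := by
  unfold WW
  rw [map_prod]
  refine Finset.prod_congr rfl fun i _ => ?_
  rw [map_pow, map_sub, map_pow, map_intCast]

theorem WW_aeval {O : Type*} [CommRing O] (z : O) (x : ℤ) :
    aeval z (PP q x) = WW q z x := by
  unfold WW PP
  rw [map_prod]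
  refine Finset.prod_congr rfl fun i _ => ?_
  simp

/-- the main theorem in the form of an identity in `ℤ[X]` -/
theorem exists_identity_aux (K : Type) [Field K] [NumberField K] [hcyc : IsCyclotomicExtension {q} ℚ K]
    (hq2 : q ≠ 2) {x : ℤ} {N : ℕ}
    (hN : (N : ℤ) = ∑ i ∈ range q, x ^ i) (hN0 : N ≠ 0) {p : ℕ} (hpq : Nat.Coprime p q) (hp0 : p ≠ 0)
    (hl : ∀ l : ℕ, l.Prime → l ∣ N → IsPrimitiveRoot (x : ZMod l) q ∧ (q : ZMod l) ^ p = 1) :
    ∃ (s : ℤ) (r : ℕ) (A B : ℤ[X]), (s = 1 ∨ s = -1) ∧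
      C s * X ^ r * PP q x = 1 + ((X - 1) ^ (q + 1) * A + (∑ i ∈ range q, X ^ i) * B) := by
  have hodd : Odd q := hq.out.odd_of_ne_two hq2
  have : NeZero q := ⟨hq.out.ne_zero⟩
  set ζ : K := IsCyclotomicExtension.zeta q ℚ K with hζdef
  have hζ : IsPrimitiveRoot ζ q := IsCyclotomicExtension.zeta_spec q ℚ K
  set z : 𝓞 K := hζ.toInteger with hzdef
  have hz : IsPrimitiveRoot z q := hζ.toInteger_isPrimitiveRoot
  have hzK : (z : K) = ζ := rfl
  -- an embedding
  obtain ⟨φ0⟩ : Nonempty (K →+* ℂ) := inferInstance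
  have hint : ∀ y : 𝓞 K, (φ0.comp (algebraMap (𝓞 K) K)) y ∈ integralClosure ℤ ℂ := by
    intro y
    exact map_isIntegral_int φ0 y.isIntegral_coe
  set Φ : 𝓞 K →+* AI := (φ0.comp (algebraMap (𝓞 K) K)).codRestrict (integralClosure ℤ ℂ) hint with hΦdef
  have hΦv : ∀ y : 𝓞 K, ((Φ y : AI) : ℂ) = φ0 (y : K) := fun y => rfl
  have hΦ : Function.Injective Φ := by
    intro a b hab
    have h1 := congrArg (fun u : AI => (u : ℂ)) hab
    simp only [hΦv] at h1
    exact RingOfIntegers.coe_injective (φ0.injective h1)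
  obtain ⟨G, hG⟩ := good_list hq2 hz hΦ hpq hp0 N.primeFactorsList (by
    intro l hl'
    have h1 := Nat.prime_of_mem_primeFactorsList hl'
    have h2 := Nat.dvd_of_mem_primeFactorsList hl'
    exact ⟨h1, hl l h1 h2⟩)
  rw [Nat.prod_primeFactorsList hN0] at hG
  obtain ⟨u, hu⟩ := WW_dvd hz hN hG
  -- absolute values
  have hnorm : ∀ φ : K →+* ℂ, ‖φ (u : K)‖ = 1 := by
    intro φ
    have h1 := hG.nrm φ
    have h2 : φ (G : K) = WW q (φ ζ) x * φ (u : K) := by
      rw [hu]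
      push_cast
      rw [map_mul]
      congr 1
      have h3 := WW_map (q := q) (φ.comp (algebraMap (𝓞 K) K)) z x
      exact h3
    have hφζ : IsPrimitiveRoot (φ ζ) q := hζ.map_of_injective φ.injective
    have h3 := norm_W hq2 hφζ x hN
    rw [h2, norm_mul, mul_pow, h3] at h1
    have h4 : (N : ℝ) ^ q ≠ 0 := pow_ne_zero _ (by exact_mod_cast hN0)
    have h5 : ‖φ (u : K)‖ ^ 2 = 1 := by
      have : (N : ℝ) ^ q * ‖φ (u : K)‖ ^ 2 = (N : ℝ) ^ q * 1 := by rw [h1, mul_one]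
      exact mul_left_cancel₀ h4 this
    have h6 : (0 : ℝ) ≤ ‖φ (u : K)‖ := norm_nonneg _
    nlinarith
  obtain ⟨m, hm0, hm⟩ := NumberField.Embeddings.pow_eq_one_of_norm_eq_one K ℂ u.isIntegral_coe hnorm
  obtain ⟨r, _, hr⟩ := hζ.exists_pow_or_neg_mul_pow_of_isOfFinOrder hodd
    (isOfFinOrder_iff_pow_eq_one.2 ⟨m, hm0, hm⟩)
  obtain ⟨s, hs, hsu⟩ : ∃ s : ℤ, (s = 1 ∨ s = -1) ∧ u = (s : 𝓞 K) * z ^ r := by
    rcases hr with hr | hr
    · refine ⟨1, Or.inl rfl, ?_⟩
      apply RingOfIntegers.coe_injective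
      push_cast
      rw [hr, one_mul]
      rfl
    · refine ⟨-1, Or.inr rfl, ?_⟩
      apply RingOfIntegers.coe_injective
      push_cast
      rw [hr, neg_one_mul]
      rfl
  -- descend the congruence
  obtain ⟨κ, hκ⟩ := hG.cong
  set E : 𝓞 K := G - 1 with hE
  have h1z : (1 - ζ : K) ≠ 0 := by
    intro h0
    exact hζ.ne_one hq.out.one_lt (sub_eq_zero.mp h0).symm
  set y' : K := (E : K) / (1 - ζ) ^ (q + 1) with hy'
  have hy1 : (E : K) = (1 - ζ) ^ (q + 1) * y' := by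
    rw [hy']
    field_simp
  have hφy : φ0 y' = (κ : ℂ) := by
    have h2 := congrArg (fun v : AI => (v : ℂ)) hκ
    have h3 : ((Φ G - 1 : AI) : ℂ) = φ0 (E : K) := by
      rw [hE]
      push_cast
      rw [hΦv, map_sub, map_one]
    have h4 : (((1 - Φ z) ^ (q + 1) * κ : AI) : ℂ) = (1 - φ0 ζ) ^ (q + 1) * (κ : ℂ) := by
      push_cast
      rw [hΦv, hzK]
    rw [h3, h4, hy1, map_mul, map_pow, map_sub, map_one] at h2
    have h5 : (1 - φ0 ζ) ^ (q + 1) ≠ 0 := by
      rw [← map_one φ0, ← map_sub, ← map_pow]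
      exact (map_ne_zero φ0).mpr (pow_ne_zero _ h1z)
    exact mul_left_cancel₀ h5 h2
  have hyint : IsIntegral ℤ y' := by
    have h2 : IsIntegral ℤ (φ0 y') := by
      rw [hφy]
      exact κ.2
    exact (isIntegral_algHom_iff φ0.toIntAlgHom φ0.injective).mp h2
  have hIC := IsCyclotomicExtension.Rat.isIntegralClosure_adjoin_singleton_of_prime hζ
  obtain ⟨yy, hyy⟩ := (hIC.isIntegral_iff).mp hyint
  have hymem : y' ∈ Algebra.adjoin ℤ ({ζ} : Set K) := by
    rw [← hyy]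
    exact yy.2
  rw [Algebra.adjoin_singleton_eq_range_aeval] at hymem
  obtain ⟨Y, hY⟩ := hymem
  have hY' : aeval ζ Y = y' := hY
  -- the polynomial identity
  have hroot : aeval ζ (C s * X ^ r * PP q x - 1 - (X - 1) ^ (q + 1) * Y) = 0 := by
    have h2 : (G : K) = WW q ζ x * ((s : K) * ζ ^ r) := by
      rw [hu, hsu]
      push_cast
      congr 1
      exact WW_map (q := q) (algebraMap (𝓞 K) K) z x
    have h3 : (E : K) = (G : K) - 1 := by
      rw [hE]
      push_cast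
      rfl
    have hev : Even (q + 1) := by
      rw [Nat.even_iff]
      have := Nat.odd_iff.mp hodd
      omega
    have h4 : (ζ - 1) ^ (q + 1) = (1 - ζ) ^ (q + 1) := by
      have : ζ - 1 = -(1 - ζ) := by ring
      rw [this, hev.neg_pow]
    simp only [map_sub, map_mul, map_pow, aeval_X, map_one, WW_aeval, hY', h4]
    rw [h3, h2] at hy1
    have h5 : (aeval ζ) (C s : ℤ[X]) = (s : K) := by simp
    rw [h5]
    linear_combination hy1
  have hmin : minpoly ℤ ζ ∣ (C s * X ^ r * PP q x - 1 - (X - 1) ^ (q + 1) * Y) :=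
    minpoly.isIntegrallyClosed_dvd (hζ.isIntegral hq.out.pos) hroot
  rw [← cyclotomic_eq_minpoly hζ hq.out.pos, cyclotomic_prime] at hmin
  obtain ⟨B, hB⟩ := hmin
  exact ⟨s, r, Y, B, hs, by linear_combination hB⟩

theorem exists_identity (hq2 : q ≠ 2) {x : ℤ} {N : ℕ}
    (hN : (N : ℤ) = ∑ i ∈ range q, x ^ i) (hN0 : N ≠ 0) {p : ℕ} (hpq : Nat.Coprime p q) (hp0 : p ≠ 0)
    (hl : ∀ l : ℕ, l.Prime → l ∣ N → IsPrimitiveRoot (x : ZMod l) q ∧ (q : ZMod l) ^ p = 1) :
    ∃ (s : ℤ) (r : ℕ) (A B : ℤ[X]), (s = 1 ∨ s = -1) ∧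
      C s * X ^ r * PP q x = 1 + ((X - 1) ^ (q + 1) * A + (∑ i ∈ range q, X ^ i) * B) := by
  have : NeZero q := ⟨hq.out.ne_zero⟩
  have h := (inferInstance :
    @IsCyclotomicExtension {q} ℚ (CyclotomicField q ℚ) _ _ (CyclotomicField.algebra q ℚ))
  have e : CyclotomicField.algebra q ℚ = DivisionRing.toRatAlgebra := Subsingleton.elim _ _
  rw [e] at h
  exact exists_identity_aux (hcyc := h) (CyclotomicField q ℚ) hq2 hN hN0 hpq hp0 hl

end fin

end Pool.Agent.Lib.MP_d1f1b5_nt.KU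
end

section
set_option autoImplicit false

/-!
The necessary congruence and the count of exceptional classes.
-/

namespace Pool.Agent.Lib.MP_d1f1b5_nt.KU

open Finset Polynomial

/-- the integer whose divisibility by `q^2` is the necessary condition -/
def ee (q : ℕ) (x : ℤ) : ℤ :=
  (x - 1) ^ (q - 1) + ∑ m ∈ Ico 1 q, ((m : ℤ) ^ (q - 1) - 1) * x ^ (q - m) - 1

variable {q : ℕ} [hq : Fact q.Prime]

theorem kummer (hq2 : q ≠ 2) {p : ℕ} (hp : p.Prime) (hpq : p ≠ q)
    (hd : QR.FF p q ∣ QR.FF q p) : (q : ℤ) ^ 2 ∣ ee q p := by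
  have hqN := QR.not_dvd_q hp hd
  have hx : ¬ (q : ℤ) ∣ (p : ℤ) - 1 := by
    intro h
    apply hqN
    have h1 : p ≡ 1 [MOD q] := by
      have h2 : (1 : ℤ) ≡ (p : ℤ) [ZMOD q] := (Int.modEq_iff_dvd).mpr h
      have h3 : ((1 : ℕ) : ℤ) ≡ ((p : ℕ) : ℤ) [ZMOD ((q : ℕ) : ℤ)] := by exact_mod_cast h2
      exact (Int.natCast_modEq_iff.mp h3).symm
    have h2 := QR.FF_mod_one (n := q) h1
    exact (Nat.modEq_zero_iff_dvd).mp (h2.trans ((Nat.modEq_zero_iff_dvd).mpr dvd_rfl))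
  have hN : ((QR.FF p q : ℕ) : ℤ) = ∑ i ∈ range q, (p : ℤ) ^ i := by
    unfold QR.FF
    push_cast
    rfl
  have hN0 : QR.FF p q ≠ 0 := by
    intro h0
    apply hqN
    rw [h0]
    exact dvd_zero _
  have hcop : Nat.Coprime p q := (Nat.coprime_primes hp hq.out).mpr hpq
  obtain ⟨s, r, A, B, hs, hE⟩ := exists_identity hq2 hN hN0 hcop hp.ne_zero (by
    intro l hl hlN
    have : Fact l.Prime := ⟨hl⟩
    refine ⟨?_, QR.FF_pow (hlN.trans hd)⟩
    have := QR.prim_root hp hd hl hlN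
    simpa using this)
  exact final_congr hq2 (main_log hq2 hx hs r A B hE)

theorem pow_sub_dvd (m : ℕ) (hm : 1 ≤ m) (hmq : m < q) : (q : ℤ) ∣ (m : ℤ) ^ (q - 1) - 1 := by
  rw [← ZMod.intCast_zmod_eq_zero_iff_dvd]
  push_cast
  have hm0 : (m : ZMod q) ≠ 0 := by
    intro h0
    rw [ZMod.natCast_eq_zero_iff] at h0
    have := Nat.le_of_dvd (by omega) h0
    omega
  rw [ZMod.pow_card_sub_one_eq_one hm0, sub_self]

omit hq in
theorem ee_congr {x y : ℤ} (h : (q : ℤ) ^ 2 ∣ x - y) : (q : ℤ) ^ 2 ∣ ee q x - ee q y := by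
  have h1 : (x - y) ∣ ee q x - ee q y := by
    have e : ee q x - ee q y = ((x - 1) ^ (q - 1) - (y - 1) ^ (q - 1))
        + ∑ m ∈ Ico 1 q, ((m : ℤ) ^ (q - 1) - 1) * (x ^ (q - m) - y ^ (q - m)) := by
      unfold ee
      have : ∑ m ∈ Ico 1 q, ((m : ℤ) ^ (q - 1) - 1) * (x ^ (q - m) - y ^ (q - m))
          = ∑ m ∈ Ico 1 q, ((m : ℤ) ^ (q - 1) - 1) * x ^ (q - m)
          - ∑ m ∈ Ico 1 q, ((m : ℤ) ^ (q - 1) - 1) * y ^ (q - m) := by
        rw [← Finset.sum_sub_distrib]
        refine Finset.sum_congr rfl fun m _ => by ring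
      rw [this]
      ring
    rw [e]
    apply dvd_add
    · have h2 := sub_dvd_pow_sub_pow (x - 1) (y - 1) (q - 1)
      have h3 : x - 1 - (y - 1) = x - y := by ring
      rwa [h3] at h2
    · exact Finset.dvd_sum fun m _ => (sub_dvd_pow_sub_pow x y (q - m)).mul_left _
  exact h.trans h1

theorem ee_not_one {x : ℤ} (h : (q : ℤ) ^ 2 ∣ ee q x) : ¬ (q : ℤ) ∣ x - 1 := by
  intro hx
  have hq1 : (q : ℤ) ∣ ee q x := (dvd_pow_self (q : ℤ) two_ne_zero).trans h
  have h1 : (q : ℤ) ∣ (x - 1) ^ (q - 1) := by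
    apply hx.trans
    apply dvd_pow_self
    have := hq.out.one_lt
    omega
  have h2 : (q : ℤ) ∣ ∑ m ∈ Ico 1 q, ((m : ℤ) ^ (q - 1) - 1) * x ^ (q - m) := by
    apply Finset.dvd_sum
    intro m hm
    rw [Finset.mem_Ico] at hm
    exact (pow_sub_dvd m hm.1 hm.2).mul_right _
  have h3 : (q : ℤ) ∣ 1 := by
    have e : (1 : ℤ) = (x - 1) ^ (q - 1)
        + ∑ m ∈ Ico 1 q, ((m : ℤ) ^ (q - 1) - 1) * x ^ (q - m) - ee q x := by
      unfold ee
      ring
    rw [e]
    exact dvd_sub (dvd_add h1 h2) hq1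
  have h4 : (q : ℤ) ≤ 1 := Int.le_of_dvd (by norm_num) h3
  have h5 : (1 : ℤ) < q := by exact_mod_cast hq.out.one_lt
  linarith

theorem ee_inj {x y : ℤ} (hxy : (q : ℤ) ∣ x - y) (hx : (q : ℤ) ^ 2 ∣ ee q x)
    (hy : (q : ℤ) ^ 2 ∣ ee q y) : (q : ℤ) ^ 2 ∣ x - y := by
  have hx1 := ee_not_one hx
  have h1 : (q : ℤ) ^ 2 ∣ (x - 1) ^ (q - 1) - (y - 1) ^ (q - 1) := by
    have e : (x - 1) ^ (q - 1) - (y - 1) ^ (q - 1) = ee q x - ee q y
        - ∑ m ∈ Ico 1 q, ((m : ℤ) ^ (q - 1) - 1) * (x ^ (q - m) - y ^ (q - m)) := by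
      unfold ee
      have : ∑ m ∈ Ico 1 q, ((m : ℤ) ^ (q - 1) - 1) * (x ^ (q - m) - y ^ (q - m))
          = ∑ m ∈ Ico 1 q, ((m : ℤ) ^ (q - 1) - 1) * x ^ (q - m)
          - ∑ m ∈ Ico 1 q, ((m : ℤ) ^ (q - 1) - 1) * y ^ (q - m) := by
        rw [← Finset.sum_sub_distrib]
        refine Finset.sum_congr rfl fun m _ => by ring
      rw [this]
      ring
    rw [e]
    apply dvd_sub (dvd_sub hx hy)
    apply Finset.dvd_sum
    intro m hm
    rw [Finset.mem_Ico] at hm
    rw [pow_two]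
    exact mul_dvd_mul (pow_sub_dvd m hm.1 hm.2) (hxy.trans (sub_dvd_pow_sub_pow x y (q - m)))
  set a := x - 1 with ha
  set b := y - 1 with hb
  have hab : x - y = a - b := by
    rw [ha, hb]
    ring
  have h2 : (q : ℤ) ^ 2 ∣ a ^ q - b ^ q := pow_congr (by rw [← hab]; exact hxy)
  have h3 : (q : ℤ) ^ 2 ∣ a ^ q * (a - b) := by
    have hq1 : q = (q - 1) + 1 := by
      have := hq.out.pos
      omega
    have e1 : a ^ q = a ^ (q - 1) * a := by
      conv_lhs => rw [hq1, pow_succ]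
    have e2 : b ^ q = b ^ (q - 1) * b := by
      conv_lhs => rw [hq1, pow_succ]
    have e : a ^ q * (a - b) = a * (a ^ q - b ^ q) - a * b * (a ^ (q - 1) - b ^ (q - 1)) := by
      rw [e1, e2]
      ring
    rw [e]
    exact dvd_sub (h2.mul_left _) (h1.mul_left _)
  have hcop : IsCoprime ((q : ℤ) ^ 2) (a ^ q) := by
    apply IsCoprime.pow
    exact (Nat.prime_iff_prime_int.mp hq.out).coprime_iff_not_dvd.mpr hx1
  rw [hab]
  exact hcop.dvd_of_dvd_mul_left h3

theorem ee_card : ((range (q ^ 2)).filter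
    (fun x : ℕ => ¬ q ∣ x ∧ (q : ℤ) ^ 2 ∣ ee q x)).card ≤ q - 2 := by
  have hq2 := hq.out.two_le
  have hcard : (Ico 2 q).card = q - 2 := Nat.card_Ico 2 q
  rw [← hcard]
  apply Finset.card_le_card_of_injOn (fun x => x % q)
  · intro x hx
    rw [Finset.mem_coe, Finset.mem_filter, Finset.mem_range] at hx
    rw [Finset.mem_coe, Finset.mem_Ico]
    obtain ⟨_, h1, h2⟩ := hx
    have h3 := ee_not_one h2
    have h4 : x % q ≠ 0 := fun h0 => h1 (Nat.dvd_of_mod_eq_zero h0)
    have h5 : x % q ≠ 1 := by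
      intro h0
      apply h3
      have h6 : x ≡ 1 [MOD q] := by
        rw [Nat.ModEq, h0, Nat.mod_eq_of_lt hq.out.one_lt]
      have h7 := (Int.natCast_modEq_iff.mpr h6).symm
      have h8 := (Int.modEq_iff_dvd).mp h7
      exact_mod_cast h8
    have h6 : x % q < q := Nat.mod_lt _ hq.out.pos
    show 2 ≤ x % q ∧ x % q < q
    omega
  · intro x hx y hy hxy
    rw [Finset.mem_coe, Finset.mem_filter, Finset.mem_range] at hx hy
    obtain ⟨hx0, _, hx2⟩ := hx
    obtain ⟨hy0, _, hy2⟩ := hy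
    have h6 : y ≡ x [MOD q] := hxy.symm
    have h7 := (Int.natCast_modEq_iff.mpr h6)
    have h8 := (Int.modEq_iff_dvd).mp h7
    have h9 := ee_inj h8 hx2 hy2
    have h10 : (y : ℤ) ≡ (x : ℤ) [ZMOD ((q ^ 2 : ℕ) : ℤ)] := by
      apply (Int.modEq_iff_dvd).mpr
      push_cast
      exact h9
    have h11 := Int.natCast_modEq_iff.mp h10
    rw [Nat.ModEq, Nat.mod_eq_of_lt hx0, Nat.mod_eq_of_lt hy0] at h11
    exact h11.symm

end Pool.Agent.Lib.MP_d1f1b5_nt.KU
end
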